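import Mathlib

set_option autoImplicit false

namespace Pool.Agent.Helper58.GC

open Finset

/-! # Graphs as vectors over `ZMod 2`, cliques, codes -/

/-- the edges of the complete graph on `V` -/
abbrev Edge (V : Type*) := {e : Sym2 V // ¬ e.IsDiag}

/-- graphs on `V`, as vectors -/
abbrev GV (V : Type*) := Edge V → ZMod 2

section defs
variable {V : Type*} [DecidableEq V]

/-- the clique on `U` -/
def cl (U : Finset V) : GV V := fun e => if e.1 ∈ U.sym2 then 1 else 0

theorem cl_mk {U : Finset V} {a b : V} (h : ¬ (s(a, b)).IsDiag) :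
    cl U ⟨s(a, b), h⟩ = if a ∈ U ∧ b ∈ U then 1 else 0 := by
  unfold cl
  simp only [Finset.mk_mem_sym2_iff]

/-- `F` is a code for the cliques with `P (number of vertices)` -/
def IsCode (P : ℕ → Prop) (F : Finset (GV V)) : Prop :=
  ∀ g ∈ F, ∀ U : Finset V, 2 ≤ U.card → P U.card → g + cl U ∉ F

end defs

section M
variable (V : Type*) [DecidableEq V] [Fintype V]

open Classical in
/-- the maximal size of a code -/
noncomputable def M (P : ℕ → Prop) : ℕ :=
  ((Finset.univ : Finset (Finset (GV V))).filter fun F => IsCode P F).sup Finset.card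

variable {V}

theorem le_M {P : ℕ → Prop} {F : Finset (GV V)} (h : IsCode P F) : F.card ≤ M V P := by
  classical
  unfold M
  exact Finset.le_sup (f := Finset.card) (Finset.mem_filter.2 ⟨Finset.mem_univ _, h⟩)

variable (V)

theorem exists_code (P : ℕ → Prop) : ∃ F : Finset (GV V), IsCode P F ∧ F.card = M V P := by
  classical
  have hne : ((Finset.univ : Finset (Finset (GV V))).filter fun F => IsCode P F).Nonempty :=
    ⟨∅, Finset.mem_filter.2 ⟨Finset.mem_univ _, fun g hg => absurd hg (Finset.notMem_empty _)⟩⟩
  obtain ⟨F, hF, h⟩ := Finset.exists_mem_eq_sup _ hne Finset.card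
  exact ⟨F, (Finset.mem_filter.1 hF).2, h.symm⟩

theorem cl_ne_zero {V : Type*} [DecidableEq V] {U : Finset V} (h : 2 ≤ U.card) : cl U ≠ 0 := by
  obtain ⟨a, ha, b, hb, hab⟩ := Finset.one_lt_card.1 h
  intro h0
  have h1 := congrFun h0 ⟨s(a, b), by simpa using hab⟩
  rw [cl_mk, if_pos ⟨ha, hb⟩] at h1
  simp at h1

theorem one_le_M (P : ℕ → Prop) : 1 ≤ M V P := by
  have h : IsCode P ({0} : Finset (GV V)) := by
    intro g hg U hU _ h
    rw [Finset.mem_singleton] at hg h
    rw [hg, zero_add] at h
    exact cl_ne_zero hU h
  simpa using le_M h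

theorem M_le (P : ℕ → Prop) : M V P ≤ Fintype.card (GV V) := by
  obtain ⟨F, -, h⟩ := exists_code V P
  rw [← h]
  exact Finset.card_le_univ F

variable {V}

theorem M_anti {P Q : ℕ → Prop} (h : ∀ n, Q n → P n) : M V P ≤ M V Q := by
  obtain ⟨F, hF, hc⟩ := exists_code V P
  rw [← hc]
  exact le_M fun g hg U hU hQ => hF g hg U hU (h _ hQ)

end M

/-! ### Counting -/

theorem card_GV (n : ℕ) : Fintype.card (GV (Fin n)) = 2 ^ n.choose 2 := by
  rw [Fintype.card_fun, ZMod.card]
  congr 1
  have := Sym2.card_subtype_not_diag (α := Fin n)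
  rw [Fintype.card_fin] at this
  convert this

/-- the preimage of a finite set -/
noncomputable def pre {A B : Type*} [Fintype A] (f : A → B) (S : Finset B) : Finset A :=
  @Finset.filter A (fun a : A => f a ∈ S) (Classical.decPred _) Finset.univ

theorem mem_pre {A B : Type*} [Fintype A] {f : A → B} {S : Finset B} {a : A} :
    a ∈ pre f S ↔ f a ∈ S := by
  unfold pre
  simp

/-- the preimage of `S` under a surjective homomorphism -/
theorem card_preimage {A B : Type*} [AddGroup A] [AddGroup B] [Fintype A] [Fintype B]
    (f : A →+ B) (hf : Function.Surjective f) (S : Finset B) :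
    (pre f S).card * Fintype.card B = S.card * Fintype.card A := by
  classical
  have hfib : ∀ b : B, (Finset.univ.filter fun a => f a = b).card =
      (Finset.univ.filter fun a => f a = 0).card := by
    intro b
    obtain ⟨a0, ha0⟩ := hf b
    apply Finset.card_bij' (fun a _ => a - a0) (fun a _ => a + a0)
    · intro a ha
      rw [Finset.mem_filter] at ha ⊢
      exact ⟨Finset.mem_univ _, by rw [map_sub, ha.2, ha0, sub_self]⟩
    · intro a ha
      rw [Finset.mem_filter] at ha ⊢
      exact ⟨Finset.mem_univ _, by rw [map_add, ha.2, ha0, zero_add]⟩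
    · intro a _; simp
    · intro a _; simp
  have h1 : Fintype.card A = Fintype.card B * (Finset.univ.filter fun a => f a = 0).card := by
    rw [← Finset.card_univ, Finset.card_eq_sum_card_fiberwise (f := f) (t := Finset.univ)
      (fun a _ => Finset.mem_coe.2 (Finset.mem_univ _))]
    rw [Finset.sum_congr rfl fun b _ => hfib b, Finset.sum_const, Finset.card_univ, smul_eq_mul]
  have h2 : (pre f S).card = S.card * (Finset.univ.filter fun a => f a = 0).card := by
    rw [Finset.card_eq_sum_card_fiberwise (f := f) (t := S)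
      (fun a ha => Finset.mem_coe.2 (mem_pre.1 (Finset.mem_coe.1 ha)))]
    rw [Finset.sum_congr rfl (g := fun _ => (Finset.univ.filter fun a => f a = 0).card),
      Finset.sum_const, smul_eq_mul]
    intro b hb
    rw [← hfib b]
    congr 1
    ext a
    simp only [Finset.mem_filter, Finset.mem_univ, true_and, mem_pre]
    constructor
    · rintro ⟨-, h⟩; exact h
    · rintro rfl; exact ⟨hb, rfl⟩
  rw [h2, h1]; ring

/-! ### Restriction -/

section res
variable {V W : Type*}

theorem map_not_diag {f : W → V} (hf : Function.Injective f) (e : Edge W) :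
    ¬ (Sym2.map f e.1).IsDiag := by
  obtain ⟨e, he⟩ := e
  induction e with
  | _ a b =>
    simp only [Sym2.map_mk, Sym2.mk_isDiag_iff] at he ⊢
    exact fun h => he (hf h)

/-- restriction along an injective map -/
def res (f : W → V) (hf : Function.Injective f) : GV V →+ GV W where
  toFun G e := G ⟨Sym2.map f e.1, map_not_diag hf e⟩
  map_zero' := rfl
  map_add' _ _ := rfl

theorem res_cl [DecidableEq V] [DecidableEq W] [Fintype W] (f : W → V)
    (hf : Function.Injective f) (U : Finset V) :
    res f hf (cl U) = cl (Finset.univ.filter fun w => f w ∈ U) := by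
  funext e
  obtain ⟨e, he⟩ := e
  induction e with
  | _ a b =>
    rw [cl_mk]
    have : cl U ⟨Sym2.map f s(a, b), map_not_diag hf ⟨s(a, b), he⟩⟩ =
      if f a ∈ U ∧ f b ∈ U then 1 else 0 := cl_mk (a := f a) (b := f b) _
    show cl U ⟨Sym2.map f s(a, b), map_not_diag hf ⟨s(a, b), he⟩⟩ = _
    rw [this]
    simp

end res

/-! ### Invariance under bijections -/

theorem M_equiv {V W : Type*} [DecidableEq V] [DecidableEq W] [Fintype V] [Fintype W] (f : W ≃ V)
    (P : ℕ → Prop) : M V P ≤ M W P := by
  classical
  obtain ⟨F, hF, hc⟩ := exists_code V P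
  have hinj : Function.Injective (res f f.injective) := by
    intro G H h
    funext e
    obtain ⟨e, he⟩ := e
    induction e with
    | _ a b =>
      have h1 : f.symm a ≠ f.symm b := by
        intro h2
        exact he (by rw [Sym2.mk_isDiag_iff]; exact f.symm.injective h2)
      have h3 := congrFun h ⟨s(f.symm a, f.symm b), by simpa using h1⟩
      have e1 : ∀ G : GV V, res f f.injective G ⟨s(f.symm a, f.symm b), by simpa using h1⟩ =
          G ⟨s(a, b), he⟩ := by
        intro G
        show G _ = G _
        congr 1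
        apply Subtype.ext
        simp
      rwa [e1, e1] at h3
  rw [← hc, ← Finset.card_image_of_injective F hinj]
  apply le_M
  intro g hg U hU hP hgU
  rw [Finset.mem_image] at hg hgU
  obtain ⟨G, hG, rfl⟩ := hg
  obtain ⟨H, hH, h⟩ := hgU
  have e1 : cl U = res f f.injective (cl (U.image f)) := by
    rw [res_cl]
    congr 1
    ext w
    simp
  rw [e1, ← map_add] at h
  have h2 := hinj h
  have hcard : (U.image f).card = U.card := Finset.card_image_of_injective U f.injective
  apply hF G hG (U.image f) (by rw [hcard]; exact hU) (by rw [hcard]; exact hP)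
  rw [← h2]; exact hH

end Pool.Agent.Helper58.GC
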