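import Pool.Agent.Helper58.GC.Rate

set_option autoImplicit false

namespace Pool.Agent.Helper58.GC

open Finset Filter Topology

/-! # Simple graphs and vectors -/

section
variable {V : Type*} [DecidableEq V] [Fintype V]

open Classical in
/-- the vector of a graph -/
noncomputable def toV (G : SimpleGraph V) : GV V := fun e => if e.1 ∈ G.edgeSet then 1 else 0

theorem toV_mk (G : SimpleGraph V) {a b : V} (h : ¬ (s(a, b)).IsDiag) :
    toV G ⟨s(a, b), h⟩ = 1 ↔ G.Adj a b := by
  classical
  unfold toV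
  by_cases hG : G.Adj a b
  · simp [hG]
  · simp [hG]

theorem toV_mk_zero (G : SimpleGraph V) {a b : V} (h : ¬ (s(a, b)).IsDiag) :
    toV G ⟨s(a, b), h⟩ = 0 ↔ ¬ G.Adj a b := by
  classical
  unfold toV
  by_cases hG : G.Adj a b
  · simp [hG]
  · simp [hG]

theorem toV_inj : Function.Injective (toV (V := V)) := by
  intro G H h
  ext a b
  by_cases hab : a = b
  · subst hab; simp
  · have hd : ¬ (s(a, b)).IsDiag := by simpa using hab
    rw [← toV_mk G hd, ← toV_mk H hd, h]

/-- the graph of a vector -/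
def ofV (g : GV V) : SimpleGraph V where
  Adj a b := ∃ h : ¬ (s(a, b)).IsDiag, g ⟨s(a, b), h⟩ = 1
  symm := ⟨by
    rintro a b ⟨h, hg⟩
    have e : s(a, b) = s(b, a) := Sym2.eq_swap
    refine ⟨by rw [← e]; exact h, ?_⟩
    rw [← hg]
    congr 2
    exact e.symm⟩
  loopless := ⟨by rintro a ⟨h, -⟩; exact h (by simp)⟩

theorem toV_ofV (g : GV V) : toV (ofV g) = g := by
  funext e
  obtain ⟨e, he⟩ := e
  induction e using Sym2.ind with
  | _ a b =>
    have h2 : g ⟨s(a, b), he⟩ = 0 ∨ g ⟨s(a, b), he⟩ = 1 := by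
      generalize g ⟨s(a, b), he⟩ = x
      revert x; decide
    rcases h2 with h2 | h2
    · rw [h2, toV_mk_zero]
      rintro ⟨_, h⟩
      rw [h2] at h
      exact zero_ne_one h
    · rw [h2, toV_mk]
      exact ⟨he, h2⟩

theorem toV_symmDiff (G H : SimpleGraph V) : toV (symmDiff G H) = toV G + toV H := by
  classical
  funext e
  obtain ⟨e, he⟩ := e
  induction e using Sym2.ind with
  | _ a b =>
    rw [Pi.add_apply]
    unfold toV
    simp only [SimpleGraph.mem_edgeSet, symmDiff, SimpleGraph.sup_adj, SimpleGraph.sdiff_adj]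
    by_cases h1 : G.Adj a b <;> by_cases h2 : H.Adj a b <;> simp [h1, h2]
    decide

theorem adj_iff_cl {K : SimpleGraph V} {U : Finset V} :
    (∀ u v : V, K.Adj u v ↔ (u ≠ v ∧ u ∈ U ∧ v ∈ U)) ↔ toV K = cl U := by
  constructor
  · intro h
    funext e
    obtain ⟨e, he⟩ := e
    induction e using Sym2.ind with
    | _ a b =>
      have hab : a ≠ b := by simpa using he
      rw [cl_mk]
      by_cases hU : a ∈ U ∧ b ∈ U
      · rw [if_pos hU, toV_mk, h]
        exact ⟨hab, hU⟩
      · rw [if_neg hU, toV_mk_zero, h]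
        exact fun h => hU h.2
  · intro h a b
    by_cases hab : a = b
    · subst hab; simp
    · have hd : ¬ (s(a, b)).IsDiag := by simpa using hab
      rw [← toV_mk K hd, h, cl_mk]
      by_cases hU : a ∈ U ∧ b ∈ U
      · simp [hU, hab]
      · rw [if_neg hU]
        simp only [zero_ne_one, false_iff]
        exact fun h => hU h.2

/-- codes of simple graphs -/
def SCode (P : ℕ → Prop) (F : Finset (SimpleGraph V)) : Prop :=
  ∀ G ∈ F, ∀ H ∈ F, G ≠ H →
    ¬ ∃ S : Finset V, P S.card ∧ ∀ u v : V, (symmDiff G H).Adj u v ↔ (u ≠ v ∧ u ∈ S ∧ v ∈ S)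

theorem cl_small {U : Finset V} (h : U.card < 2) : cl U = 0 := by
  funext e
  obtain ⟨e, he⟩ := e
  induction e using Sym2.ind with
  | _ a b =>
    have hab : a ≠ b := by simpa using he
    rw [cl_mk, Pi.zero_apply, if_neg]
    rintro ⟨ha, hb⟩
    exact absurd (Finset.one_lt_card.2 ⟨a, ha, b, hb, hab⟩) (by omega)

theorem two_eq (g : GV V) : g + g = 0 := by
  funext e
  simp only [Pi.add_apply, Pi.zero_apply]
  generalize g e = x
  revert x; decide

theorem scode_iff {P : ℕ → Prop} {F : Finset (SimpleGraph V)} :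
    SCode P F ↔ IsCode P (F.map ⟨toV, toV_inj⟩) := by
  constructor
  · intro h g hg U hU hP hgU
    rw [Finset.mem_map] at hg hgU
    obtain ⟨G, hG, rfl⟩ := hg
    obtain ⟨H, hH, hHU⟩ := hgU
    simp only [Function.Embedding.coeFn_mk] at hHU
    have e : toV (symmDiff G H) = cl U := by
      rw [toV_symmDiff, hHU, ← add_assoc, two_eq, zero_add]
    refine h G hG H hH ?_ ⟨U, hP, adj_iff_cl.2 e⟩
    rintro rfl
    refine cl_ne_zero hU ?_
    rw [← e, toV_symmDiff, two_eq]
  · rintro h G hG H hH hGH ⟨S, hP, hS⟩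
    have e := adj_iff_cl.1 hS
    rw [toV_symmDiff] at e
    have h2 : 2 ≤ S.card := by
      by_contra hlt
      rw [cl_small (by omega)] at e
      apply hGH
      apply toV_inj
      calc toV G = toV G + (toV H + toV H) := by rw [two_eq, add_zero]
        _ = toV H := by rw [← add_assoc, e, zero_add]
    refine h (toV G) (Finset.mem_map.2 ⟨G, hG, rfl⟩) S h2 hP ?_
    rw [← e, ← add_assoc, two_eq, zero_add]
    exact Finset.mem_map.2 ⟨H, hH, rfl⟩

/-- an upper bound for all codes -/
theorem scode_card {P : ℕ → Prop} {F : Finset (SimpleGraph V)} (h : SCode P F) :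
    F.card ≤ M V P := by
  rw [← Finset.card_map ⟨toV, toV_inj⟩]
  exact le_M (scode_iff.1 h)

/-- it is attained -/
theorem scode_exists (P : ℕ → Prop) :
    ∃ F : Finset (SimpleGraph V), SCode P F ∧ F.card = M V P := by
  classical
  obtain ⟨F, hF, hc⟩ := exists_code V P
  refine ⟨F.image ofV, ?_, ?_⟩
  · rw [scode_iff]
    convert hF
    ext g
    simp only [Finset.mem_map, Finset.mem_image, Function.Embedding.coeFn_mk,
      exists_exists_and_eq_and, toV_ofV, exists_eq_right]
  · rw [Finset.card_image_of_injective, hc]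
    intro g g' h
    rw [← toV_ofV g, h, toV_ofV]

end

end Pool.Agent.Helper58.GC
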