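import Pool.Agent.Helper58.GC.Contr

set_option autoImplicit false

namespace Pool.Agent.Helper58.GC

open Finset

/-! # The composition -/

section comp
variable (k b r : ℕ)

/-- `k` blocks of size `b` and `r` single points -/
abbrev BV : Type := (Fin k × Fin b) ⊕ Fin r
/-- the blocks -/
abbrev BI : Type := Fin k ⊕ Fin r

variable {k b r}

/-- the block of a vertex -/
def prj : BV k b r → BI k r := Sum.map Prod.fst id

/-- the vertices of a block -/
def blk (i : Fin k) : Fin b → BV k b r := fun x => Sum.inl (i, x)

theorem blk_inj (i : Fin k) : Function.Injective (blk (r := r) (b := b) i) := by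
  intro x y h
  unfold blk at h
  simpa using h

/-- a representative of each block -/
def rp (hb : 0 < b) : BI k r → BV k b r := Sum.elim (fun i => Sum.inl (i, ⟨0, hb⟩)) Sum.inr

theorem prj_rp (hb : 0 < b) (i : BI k r) : prj (rp hb i) = i := by
  rcases i with i | i <;> rfl

theorem prj_blk (i : Fin k) (x : Fin b) : prj (r := r) (blk i x) = Sum.inl i := rfl

/-- all block graphs and the contracted graph -/
def Phi : GV (BV k b r) →+ (Fin k → GV (Fin b)) × GV (BI k r) where
  toFun G := (fun i => res (blk i) (blk_inj i) G, con prj G)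
  map_zero' := by
    ext1
    · funext i; exact map_zero _
    · exact map_zero _
  map_add' G H := by
    ext1
    · funext i; exact map_add _ _ _
    · exact map_add _ _ _

theorem map_prj_blk (i : Fin k) (e : Sym2 (Fin b)) :
    (Sym2.map (prj (r := r)) (Sym2.map (blk i) e)).IsDiag := by
  induction e with
  | _ x y => simp [prj_blk]

/-- the graph with given contraction and empty blocks -/
noncomputable def lift1 (hb : 0 < b) (h : GV (BI k r)) : GV (BV k b r) := fun e =>
  if hd : ¬ (Sym2.map prj e.1).IsDiag ∧ e.1 = Sym2.map (rp hb) (Sym2.map prj e.1) then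
    h ⟨Sym2.map prj e.1, hd.1⟩ else 0

theorem res_lift1 (hb : 0 < b) (h : GV (BI k r)) (i : Fin k) :
    res (blk i) (blk_inj i) (lift1 hb h) = 0 := by
  funext e
  show lift1 hb h ⟨Sym2.map (blk i) e.1, _⟩ = 0
  unfold lift1
  rw [dif_neg]
  rintro ⟨h1, -⟩
  exact h1 (map_prj_blk i e.1)

theorem con_lift1 (hb : 0 < b) (h : GV (BI k r)) : con prj (lift1 hb h) = h := by
  funext e
  rw [con_apply]
  have hrp : Function.Injective (rp (k := k) (r := r) hb) := by
    intro x y hxy
    rw [← prj_rp hb x, ← prj_rp hb y, hxy]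
  have hm : Sym2.map prj (Sym2.map (rp hb) e.1) = e.1 := by
    rw [Sym2.map_map]
    have : (prj ∘ rp (k := k) (r := r) hb) = id := funext fun i => prj_rp hb i
    rw [this, Sym2.map_id]; rfl
  rw [Finset.sum_eq_single (⟨Sym2.map (rp hb) e.1, map_not_diag hrp e⟩ : Edge (BV k b r))]
  · have : Sym2.map prj (⟨Sym2.map (rp hb) e.1, map_not_diag hrp e⟩ : Edge (BV k b r)).1 = e.1 := hm
    rw [if_pos this]
    unfold lift1
    rw [dif_pos ⟨by rw [this]; exact e.2, by rw [this]⟩]
    congr 1
    exact Subtype.ext this
  · intro e' _ hne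
    split_ifs with h1
    · unfold lift1
      split_ifs with h2
      · exfalso
        apply hne
        apply Subtype.ext
        rw [h2.2, h1]
      · rfl
    · rfl
  · intro h1; exact absurd (Finset.mem_univ _) h1

/-- the graph with given block graphs and no other edge -/
noncomputable def lift2 (g : Fin k → GV (Fin b)) : GV (BV k b r) := fun e => by
  classical
  exact if hd : ∃ p : Fin k × Edge (Fin b), Sym2.map (blk p.1) p.2.1 = e.1 then
    g hd.choose.1 hd.choose.2 else 0

theorem blk_map_inj {i j : Fin k} {e e' : Edge (Fin b)}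
    (h : Sym2.map (blk (r := r) i) e.1 = Sym2.map (blk j) e'.1) : i = j ∧ e = e' := by
  have hij : i = j := by
    have h1 := congrArg (Sym2.map prj) h
    obtain ⟨e, he⟩ := e
    obtain ⟨e', he'⟩ := e'
    induction e with
    | _ a b =>
      induction e' with
      | _ c d =>
        simp only [Sym2.map_mk, prj_blk, Sym2.eq_iff, Sum.inl.injEq, or_self] at h1
        exact h1.1
  subst hij
  refine ⟨rfl, Subtype.ext ?_⟩
  exact Sym2.map.injective (blk_inj i) h

theorem res_lift2 (g : Fin k → GV (Fin b)) (i : Fin k) :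
    res (blk (r := r) i) (blk_inj i) (lift2 g) = g i := by
  funext e
  show lift2 g ⟨Sym2.map (blk i) e.1, _⟩ = g i e
  unfold lift2
  have hd : ∃ p : Fin k × Edge (Fin b), Sym2.map (blk (r := r) p.1) p.2.1 =
    Sym2.map (blk i) e.1 := ⟨(i, e), rfl⟩
  rw [dif_pos hd]
  obtain ⟨h1, h2⟩ := blk_map_inj hd.choose_spec
  rw [h1, h2]

theorem con_lift2 (g : Fin k → GV (Fin b)) : con prj (lift2 (r := r) g) = 0 := by
  funext e
  rw [con_apply]
  apply Finset.sum_eq_zero
  intro e' _
  split_ifs with h1
  · unfold lift2
    split_ifs with h2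
    · exfalso
      obtain ⟨p, hp⟩ := h2
      apply e.2
      rw [← h1, ← hp]
      exact map_prj_blk p.1 p.2.1
    · rfl
  · rfl

theorem Phi_surj (hb : 0 < b) : Function.Surjective (Phi (k := k) (b := b) (r := r)) := by
  rintro ⟨g, h⟩
  refine ⟨lift2 g + lift1 hb h, ?_⟩
  rw [map_add]
  ext1
  · funext i
    show res (blk i) (blk_inj i) (lift2 g) + res (blk i) (blk_inj i) (lift1 hb h) = g i
    rw [res_lift2, res_lift1, add_zero]
  · show con prj (lift2 g) + con prj (lift1 hb h) = h
    rw [con_lift2, con_lift1, zero_add]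

/-- the code of the composition -/
noncomputable def cmpS (E : Finset (GV (Fin b))) (C : Finset (GV (BI k r))) (c : GV (Fin b)) :
    Finset ((Fin k → GV (Fin b)) × GV (BI k r)) :=
  ((Fintype.piFinset fun _ : Fin k => E).filter fun g => ∑ i, g i = c) ×ˢ C

theorem cmp_code {E : Finset (GV (Fin b))} {C : Finset (GV (BI k r))} (hE : IsCode Even E)
    (hC : IsCode (fun _ => True) C) (c : GV (Fin b)) :
    IsCode (fun _ => True) (pre (Phi (k := k) (b := b) (r := r)) (cmpS E C c)) := by
  intro G hG U hU _ hGU
  rw [mem_pre] at hG hGU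
  rw [map_add] at hGU
  unfold cmpS at hG hGU
  rw [Finset.mem_product, Finset.mem_filter, Fintype.mem_piFinset] at hG hGU
  obtain ⟨⟨g1, g2⟩, g3⟩ := hG
  obtain ⟨⟨h1, h2⟩, h3⟩ := hGU
  have e1 : ∀ i, (Phi (cl U) : (Fin k → GV (Fin b)) × GV (BI k r)).1 i =
      cl (Finset.univ.filter fun x => blk i x ∈ U) := fun i => res_cl _ _ _
  have e2 : (Phi (cl U) : (Fin k → GV (Fin b)) × GV (BI k r)).2 =
      cl (Finset.univ.filter fun i => Odd (fib prj U i).card) := con_cl _ _
  -- the part of `U` in the block `i`
  have hfib : ∀ i : Fin k, (fib prj U (Sum.inl i)).card =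
      (Finset.univ.filter fun x : Fin b => blk (r := r) i x ∈ U).card := by
    intro i
    symm
    refine Finset.card_bij (fun x _ => blk i x) ?_ ?_ ?_
    · intro x hx
      rw [Finset.mem_filter] at hx
      exact mem_fib.2 ⟨hx.2, rfl⟩
    · intro x _ y _ h; exact blk_inj i h
    · intro v hv
      rw [mem_fib] at hv
      rcases v with ⟨j, x⟩ | v
      · have hj : j = i := by
          have := hv.2
          unfold prj at this
          simpa using this
        subst hj
        exact ⟨x, Finset.mem_filter.2 ⟨Finset.mem_univ _, hv.1⟩, rfl⟩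
      · have := hv.2
        unfold prj at this
        simp at this
  have hsing : ∀ j : Fin r, (fib prj U (Sum.inr j)).card ≤ 1 := by
    intro j
    rw [Finset.card_le_one]
    intro v hv w hw
    rw [mem_fib] at hv hw
    rcases v with v | v
    · exact absurd hv.2 (by unfold prj; simp)
    · rcases w with w | w
      · exact absurd hw.2 (by unfold prj; simp)
      · have h4 := hv.2
        have h5 := hw.2
        unfold prj at h4 h5
        simp only [Sum.map_inr, id, Sum.inr.injEq] at h4 h5
        rw [h4, h5]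
  -- no block with an even part
  have hev : ∀ i : BI k r, 2 ≤ (fib prj U i).card → Odd (fib prj U i).card := by
    rintro (i | j) h
    · by_contra hodd
      rw [Nat.not_odd_iff_even, hfib] at hodd
      rw [hfib] at h
      have h4 := h1 i
      rw [Prod.fst_add, Pi.add_apply, e1 i] at h4
      exact hE _ (g1 i) _ h hodd h4
    · have := hsing j
      omega
  -- at most one odd block
  have hone : (Finset.univ.filter fun i => Odd (fib prj U i).card).card ≤ 1 := by
    by_contra hne
    rw [Prod.snd_add, e2] at h3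
    exact hC _ g3 _ (by omega) trivial h3
  obtain ⟨v, hv⟩ : U.Nonempty := Finset.card_pos.1 (by omega)
  have hodd : ∀ w ∈ U, Odd (fib prj U (prj w)).card := by
    intro w hw
    have hpos : 0 < (fib prj U (prj w)).card := Finset.card_pos.2 ⟨w, mem_fib.2 ⟨hw, rfl⟩⟩
    by_cases h : 2 ≤ (fib prj U (prj w)).card
    · exact hev _ h
    · have : (fib prj U (prj w)).card = 1 := by omega
      rw [this]; exact odd_one
  have hall : ∀ w ∈ U, prj w = prj v := by
    intro w hw
    rw [Finset.card_le_one] at hone
    exact hone _ (Finset.mem_filter.2 ⟨Finset.mem_univ _, hodd w hw⟩) _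
      (Finset.mem_filter.2 ⟨Finset.mem_univ _, hodd v hv⟩)
  have hUfib : fib prj U (prj v) = U := by
    unfold fib
    exact Finset.filter_true_of_mem hall
  rcases hpv : prj v with i | j
  · rw [hpv] at hUfib
    -- the sum of the block graphs changes
    rw [Prod.fst_add] at h2
    simp only [Pi.add_apply, Finset.sum_add_distrib] at h2
    rw [g2] at h2
    have h4 : ∑ j, (Phi (cl U) : (Fin k → GV (Fin b)) × GV (BI k r)).1 j = 0 := by
      have := h2
      simpa using this
    rw [Finset.sum_eq_single i] at h4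
    · rw [e1 i] at h4
      refine cl_ne_zero ?_ h4
      rw [← hfib i, hUfib]
      exact hU
    · intro j _ hji
      rw [e1 j]
      have : (Finset.univ.filter fun x : Fin b => blk (r := r) j x ∈ U) = ∅ := by
        rw [Finset.filter_eq_empty_iff]
        intro x _ hx
        have h5 := hall _ hx
        rw [hpv, prj_blk] at h5
        exact hji (by simpa using h5)
      rw [this]
      funext e
      obtain ⟨e, he⟩ := e
      induction e with
      | _ a b => rw [cl_mk]; simp
    · intro h; exact absurd (Finset.mem_univ _) h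
  · rw [hpv] at hUfib
    have := hsing j
    rw [hUfib] at this
    omega

/-- the composition, in terms of sizes -/
theorem comp_M (hb : 0 < b) :
    (M (Fin b) Even) ^ k * M (BI k r) (fun _ => True) * Fintype.card (GV (BV k b r)) ≤
      M (BV k b r) (fun _ => True) *
        (Fintype.card (GV (Fin b)) * (Fintype.card (GV (Fin b)) ^ k *
          Fintype.card (GV (BI k r)))) := by
  classical
  obtain ⟨E, hE, hEc⟩ := exists_code (Fin b) Even
  obtain ⟨C, hC, hCc⟩ := exists_code (BI k r) (fun _ => True)
  rw [← hEc, ← hCc]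
  -- the total size
  have htot : ∑ c : GV (Fin b), (cmpS E C c).card = E.card ^ k * C.card := by
    unfold cmpS
    simp only [Finset.card_product]
    rw [← Finset.sum_mul]
    congr 1
    rw [← Finset.card_eq_sum_card_fiberwise (f := fun g : Fin k → GV (Fin b) => ∑ i, g i)
      (t := Finset.univ) (fun a _ => Finset.mem_coe.2 (Finset.mem_univ _))]
    rw [Fintype.card_piFinset]
    simp
  obtain ⟨c, -, hc⟩ : ∃ c ∈ (Finset.univ : Finset (GV (Fin b))),
      E.card ^ k * C.card ≤ Fintype.card (GV (Fin b)) * (cmpS E C c).card := by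
    by_contra hne
    push Not at hne
    have h1 : ∑ c : GV (Fin b), Fintype.card (GV (Fin b)) * (cmpS E C c).card <
        ∑ _c : GV (Fin b), E.card ^ k * C.card :=
      Finset.sum_lt_sum_of_nonempty Finset.univ_nonempty hne
    rw [← Finset.mul_sum, htot, Finset.sum_const, Finset.card_univ, smul_eq_mul] at h1
    exact lt_irrefl _ h1
  have h1 := le_M (cmp_code hE hC c)
  have h2 := card_preimage (Phi (k := k) (b := b) (r := r)) (Phi_surj hb) (cmpS E C c)
  have h3 : Fintype.card ((Fin k → GV (Fin b)) × GV (BI k r)) =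
      Fintype.card (GV (Fin b)) ^ k * Fintype.card (GV (BI k r)) := by
    rw [Fintype.card_prod, Fintype.card_fun, Fintype.card_fin]
  rw [h3] at h2
  calc E.card ^ k * C.card * Fintype.card (GV (BV k b r))
      ≤ Fintype.card (GV (Fin b)) * (cmpS E C c).card * Fintype.card (GV (BV k b r)) :=
        Nat.mul_le_mul_right _ hc
    _ = Fintype.card (GV (Fin b)) * ((cmpS E C c).card * Fintype.card (GV (BV k b r))) := by ring
    _ = Fintype.card (GV (Fin b)) *
        ((pre (Phi (k := k) (b := b) (r := r)) (cmpS E C c)).card *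
          (Fintype.card (GV (Fin b)) ^ k * Fintype.card (GV (BI k r)))) := by rw [← h2]
    _ ≤ Fintype.card (GV (Fin b)) * (M (BV k b r) (fun _ => True) *
          (Fintype.card (GV (Fin b)) ^ k * Fintype.card (GV (BI k r)))) :=
        Nat.mul_le_mul_left _ (Nat.mul_le_mul_right _ h1)
    _ = _ := by ring

end comp

/-! ### Densities -/

/-- the density of the best clique code on `n` vertices -/
noncomputable def dK (n : ℕ) : ℝ := (M (Fin n) (fun _ => True) : ℝ) / 2 ^ n.choose 2

/-- the density of the best even clique code on `n` vertices -/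
noncomputable def dE (n : ℕ) : ℝ := (M (Fin n) Even : ℝ) / 2 ^ n.choose 2

theorem card_GV' {V : Type*} [Fintype V] [DecidableEq V] :
    Fintype.card (GV V) = 2 ^ (Fintype.card V).choose 2 := by
  rw [Fintype.card_fun, ZMod.card]
  congr 1
  have := Sym2.card_subtype_not_diag (α := V)
  convert this

theorem dK_pos (n : ℕ) : 0 < dK n := by
  unfold dK
  have := one_le_M (Fin n) (fun _ => True)
  have h : (0 : ℝ) < (M (Fin n) (fun _ => True) : ℝ) := by exact_mod_cast this
  positivity

theorem dK_ge (n : ℕ) : 1 / 2 ^ n.choose 2 ≤ dK n := by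
  unfold dK
  have h : (1 : ℝ) ≤ (M (Fin n) (fun _ => True) : ℝ) := by
    exact_mod_cast one_le_M (Fin n) (fun _ => True)
  gcongr

theorem dK_le_dE (n : ℕ) : dK n ≤ dE n := by
  unfold dK dE
  have h : (M (Fin n) (fun _ => True) : ℝ) ≤ (M (Fin n) Even : ℝ) := by
    exact_mod_cast M_anti (fun _ _ => trivial)
  gcongr

theorem dE_le_one (n : ℕ) : dE n ≤ 1 := by
  unfold dE
  rw [div_le_one (by positivity)]
  have := M_le (Fin n) Even
  rw [card_GV] at this
  exact_mod_cast this

theorem comp_dK {k b r : ℕ} (hb : 0 < b) :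
    dE b ^ k * dK (k + r) ≤ dK (b * k + r) * 2 ^ b.choose 2 := by
  have h := comp_M (k := k) (b := b) (r := r) hb
  have c1 : Fintype.card (BV k b r) = b * k + r := by
    simp [mul_comm]
  have c2 : Fintype.card (BI k r) = k + r := by simp
  have e1 : Fin (b * k + r) ≃ BV k b r := (Fintype.equivFinOfCardEq c1).symm
  have e2 : Fin (k + r) ≃ BI k r := (Fintype.equivFinOfCardEq c2).symm
  have h1 : M (BV k b r) (fun _ => True) ≤ M (Fin (b * k + r)) (fun _ => True) := M_equiv e1 _
  have h2 : M (Fin (k + r)) (fun _ => True) ≤ M (BI k r) (fun _ => True) := M_equiv e2.symm _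
  simp only [card_GV', c1, c2, Fintype.card_fin] at h
  have h3 : (M (Fin b) Even) ^ k * M (Fin (k + r)) (fun _ => True) * 2 ^ (b * k + r).choose 2 ≤
      M (Fin (b * k + r)) (fun _ => True) * (2 ^ b.choose 2 * ((2 ^ b.choose 2) ^ k *
        2 ^ (k + r).choose 2)) :=
    ((Nat.mul_le_mul_right _ (Nat.mul_le_mul_left _ h2)).trans h).trans
      (Nat.mul_le_mul_right _ h1)
  have h4 : ((M (Fin b) Even : ℝ)) ^ k * (M (Fin (k + r)) (fun _ => True) : ℝ) *
      2 ^ (b * k + r).choose 2 ≤ (M (Fin (b * k + r)) (fun _ => True) : ℝ) *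
        (2 ^ b.choose 2 * ((2 ^ b.choose 2) ^ k * 2 ^ (k + r).choose 2)) := by
    exact_mod_cast h3
  unfold dE dK
  rw [div_pow, div_mul_div_comm, div_mul_eq_mul_div, div_le_div_iff₀ (by positivity)
    (by positivity)]
  calc _ ≤ _ := h4
    _ = _ := by ring

end Pool.Agent.Helper58.GC
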