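import Pool.Agent.Helper58.GC.Basic

set_option autoImplicit false

namespace Pool.Agent.Helper58.GC

open Finset

/-! # Contraction -/

section con
variable {V I : Type*} [DecidableEq V] [DecidableEq I] [Fintype V]

/-- contraction of the fibres of `π`: number of edges between two fibres, modulo 2 -/
def con (π : V → I) : GV V →+ GV I where
  toFun G e := ∑ e' : Edge V, if Sym2.map π e'.1 = e.1 then G e' else 0
  map_zero' := by funext e; simp
  map_add' G H := by
    funext e
    simp only [Pi.add_apply]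
    rw [← Finset.sum_add_distrib]
    apply Finset.sum_congr rfl
    intro e' _
    split_ifs <;> simp

theorem con_apply (π : V → I) (G : GV V) (e : Edge I) :
    con π G e = ∑ e' : Edge V, if Sym2.map π e'.1 = e.1 then G e' else 0 := rfl

/-- the vertices of `U` in the fibre of `i` -/
def fib (π : V → I) (U : Finset V) (i : I) : Finset V := U.filter fun v => π v = i

theorem mem_fib {π : V → I} {U : Finset V} {i : I} {v : V} : v ∈ fib π U i ↔ v ∈ U ∧ π v = i := by
  unfold fib; rw [Finset.mem_filter]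

theorem con_cl_aux (π : V → I) (U : Finset V) {i j : I} (hij : i ≠ j) :
    con π (cl U) ⟨s(i, j), by simpa using hij⟩ = (((fib π U i).card * (fib π U j).card : ℕ) : ZMod 2) := by
  classical
  rw [con_apply]
  have h1 : ∀ e' : Edge V, (if Sym2.map π e'.1 = s(i, j) then cl U e' else 0 : ZMod 2) =
      if Sym2.map π e'.1 = s(i, j) ∧ e'.1 ∈ U.sym2 then 1 else 0 := by
    intro e'
    unfold cl
    by_cases h : Sym2.map π e'.1 = s(i, j) <;> simp [h]
  simp only [h1]
  rw [Finset.sum_boole]
  congr 1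
  rw [← Finset.card_product]
  symm
  have hne : ∀ a ∈ fib π U i, ∀ b ∈ fib π U j, a ≠ b := by
    intro a ha b hb hab
    rw [mem_fib] at ha hb
    exact hij (by rw [← ha.2, ← hb.2, hab])
  refine Finset.card_bij (fun p hp => ⟨s(p.1, p.2), ?_⟩) ?_ ?_ ?_
  · rw [Finset.mem_product] at hp
    simpa using hne _ hp.1 _ hp.2
  · intro p hp
    rw [Finset.mem_product, mem_fib, mem_fib] at hp
    rw [Finset.mem_filter]
    refine ⟨Finset.mem_univ _, ?_, ?_⟩
    · show Sym2.map π s(p.1, p.2) = _
      rw [Sym2.map_mk, hp.1.2, hp.2.2]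
    · rw [Finset.mk_mem_sym2_iff]; exact ⟨hp.1.1, hp.2.1⟩
  · intro p hp q hq h
    rw [Finset.mem_product, mem_fib, mem_fib] at hp hq
    have h2 := congrArg Subtype.val h
    simp only [Sym2.eq_iff] at h2
    rcases h2 with ⟨h3, h4⟩ | ⟨h3, h4⟩
    · exact Prod.ext h3 h4
    · exfalso
      exact hij (by rw [← hp.1.2, ← hq.2.2, h3])
  · rintro ⟨e, he⟩ h
    rw [Finset.mem_filter] at h
    obtain ⟨-, h2, h3⟩ := h
    induction e with
    | _ a b =>
      simp only [Sym2.map_mk, Sym2.eq_iff] at h2
      rw [Finset.mk_mem_sym2_iff] at h3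
      rcases h2 with ⟨h4, h5⟩ | ⟨h4, h5⟩
      · refine ⟨(a, b), ?_, rfl⟩
        rw [Finset.mem_product, mem_fib, mem_fib]
        exact ⟨⟨h3.1, h4⟩, ⟨h3.2, h5⟩⟩
      · refine ⟨(b, a), ?_, ?_⟩
        · rw [Finset.mem_product, mem_fib, mem_fib]
          exact ⟨⟨h3.2, h5⟩, ⟨h3.1, h4⟩⟩
        · apply Subtype.ext
          exact Sym2.eq_swap

theorem natCast_eq_ite (n : ℕ) : (n : ZMod 2) = if Odd n then 1 else 0 := by
  split_ifs with h
  · exact (ZMod.natCast_eq_one_iff_odd).2 h
  · rw [Nat.not_odd_iff_even] at h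
    exact (ZMod.natCast_eq_zero_iff_even).2 h

theorem con_cl [Fintype I] (π : V → I) (U : Finset V) :
    con π (cl U) = cl (Finset.univ.filter fun i => Odd (fib π U i).card) := by
  funext e
  obtain ⟨e, he⟩ := e
  induction e with
  | _ i j =>
    have hij : i ≠ j := by simpa using he
    rw [cl_mk, con_cl_aux π U hij, natCast_eq_ite]
    simp only [Finset.mem_filter, Finset.mem_univ, true_and, Nat.odd_mul]

end con

end Pool.Agent.Helper58.GC
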