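import Pool.Agent.Helper58.GC.Bridge

set_option autoImplicit false

namespace Pool.Agent.Helper58.GC

open Finset MvPolynomial

/-! # The degree of a clique code -/

section
variable {K : Type*} [Field K] {n : ℕ}

/-- the indicator of a set, a vertex of the cube -/
def pt (K : Type*) [Field K] (T : Finset (Fin n)) : Fin n → K := fun i => if i ∈ T then 1 else 0

/-- the alternating sum of a polynomial of small degree over a cube vanishes -/
theorem cube (q : MvPolynomial (Fin n) K) (S : Finset (Fin n)) (h : q.totalDegree < S.card) :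
    ∑ T ∈ S.powerset, (-1 : K) ^ T.card * eval (pt K T) q = 0 := by
  simp only [eval_eq', Finset.mul_sum, pt]
  rw [Finset.sum_comm]
  apply Finset.sum_eq_zero
  intro m hm
  have hex : ∃ i ∈ S, m i = 0 := by
    by_contra hcon
    push Not at hcon
    have h1 : S.card ≤ ∑ i ∈ S, m i := by
      rw [Finset.card_eq_sum_ones]
      exact Finset.sum_le_sum fun i hi => Nat.one_le_iff_ne_zero.2 (hcon i hi)
    have h2 : ∑ i ∈ S, m i ≤ m.sum fun _ e => e := by
      rw [Finsupp.sum_fintype _ _ (fun _ => rfl)]
      exact Finset.sum_le_sum_of_subset (Finset.subset_univ S)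
    have h3 := le_totalDegree hm
    omega
  obtain ⟨i0, hi0, hm0⟩ := hex
  have key : ∀ T ∈ S.powerset, (-1 : K) ^ T.card *
      (coeff m q * ∏ i, (if i ∈ T then (1 : K) else 0) ^ m i) =
      (coeff m q * ∏ i ∈ Sᶜ, (0 : K) ^ m i) *
        ((∏ i ∈ T, (-1 : K)) * ∏ i ∈ S \ T, (0 : K) ^ m i) := by
    intro T hT
    rw [Finset.mem_powerset] at hT
    rw [← Finset.prod_mul_prod_compl S, ← Finset.prod_sdiff hT, Finset.prod_const]
    have e1 : ∏ i ∈ S \ T, (if i ∈ T then (1 : K) else 0) ^ m i =
        ∏ i ∈ S \ T, (0 : K) ^ m i := by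
      apply Finset.prod_congr rfl
      intro i hi
      rw [if_neg (Finset.mem_sdiff.1 hi).2]
    have e2 : ∏ i ∈ T, (if i ∈ T then (1 : K) else 0) ^ m i = 1 := by
      apply Finset.prod_eq_one
      intro i hi
      rw [if_pos hi, one_pow]
    have e3 : ∏ i ∈ Sᶜ, (if i ∈ T then (1 : K) else 0) ^ m i =
        ∏ i ∈ Sᶜ, (0 : K) ^ m i := by
      apply Finset.prod_congr rfl
      intro i hi
      rw [if_neg fun h => (Finset.mem_compl.1 hi) (hT h)]
    rw [e1, e2, e3]
    ring
  rw [Finset.sum_congr rfl key, ← Finset.mul_sum, ← Finset.prod_add]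
  rw [Finset.prod_eq_zero hi0 (by rw [hm0, pow_zero]; ring), mul_zero]

theorem totalDegree_bind₁_le {σ τ : Type*} (p : MvPolynomial σ K) (f : σ → MvPolynomial τ K)
    (h : ∀ i, (f i).totalDegree ≤ 2) : (bind₁ f p).totalDegree ≤ 2 * p.totalDegree := by
  classical
  have e : bind₁ f p = ∑ m ∈ p.support, C (coeff m p) * ∏ i ∈ m.support, f i ^ m i := by
    rw [bind₁, aeval_def, eval₂_eq]
    rfl
  rw [e]
  refine (totalDegree_finsetSum _ _).trans (Finset.sup_le fun m hm => ?_)
  refine (totalDegree_mul _ _).trans ?_
  rw [totalDegree_C, zero_add]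
  refine (totalDegree_finsetProd _ _).trans ?_
  have h1 := le_totalDegree hm
  rw [Finsupp.sum] at h1
  calc ∑ i ∈ m.support, (f i ^ m i).totalDegree ≤ ∑ i ∈ m.support, 2 * m i := by
        apply Finset.sum_le_sum
        intro i _
        refine (totalDegree_pow _ _).trans ?_
        rw [mul_comm]
        exact Nat.mul_le_mul_right _ (h i)
    _ = 2 * ∑ i ∈ m.support, m i := by rw [Finset.mul_sum]
    _ ≤ 2 * p.totalDegree := Nat.mul_le_mul_left _ h1

theorem eval_bind {σ τ : Type*} (f : τ → K) (g : σ → MvPolynomial τ K) (p : MvPolynomial σ K) :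
    eval f (bind₁ g p) = eval (fun i => eval f (g i)) p :=
  eval₂Hom_bind₁ (RingHom.id K) f g p

open Classical in
/-- the indicator of the edge set of a graph -/
noncomputable def ind (K : Type*) [Field K] (G : SimpleGraph (Fin n)) : Sym2 (Fin n) → K :=
  fun e => if e ∈ G.edgeSet then 1 else 0

/-- the clique on `T` -/
def clq (T : Finset (Fin n)) : SimpleGraph (Fin n) where
  Adj u v := u ≠ v ∧ u ∈ T ∧ v ∈ T
  symm := ⟨fun _ _ h => ⟨h.1.symm, h.2.2, h.2.1⟩⟩
  loopless := ⟨fun _ h => h.1 rfl⟩

open Classical in
/-- the substitution -/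
noncomputable def sub (G : SimpleGraph (Fin n)) : Sym2 (Fin n) → MvPolynomial (Fin n) K :=
  fun e => if e.IsDiag then 0 else
    C (ind K G e) + C (1 - 2 * ind K G e) *
      Sym2.lift ⟨fun i j => X i * X j, fun _ _ => mul_comm _ _⟩ e

theorem eval_sub (G : SimpleGraph (Fin n)) (T : Finset (Fin n)) (e : Sym2 (Fin n)) :
    eval (pt K T) (sub (K := K) G e) =
      ind K (symmDiff G (clq T)) e := by
  classical
  induction e using Sym2.ind with
  | _ a b =>
    unfold sub ind pt
    by_cases hab : a = b
    · subst hab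
      simp
    · rw [if_neg (by simpa using hab)]
      simp only [SimpleGraph.mem_edgeSet, symmDiff, SimpleGraph.sup_adj, SimpleGraph.sdiff_adj,
        clq, Sym2.lift_mk, map_add, map_mul, eval_C, eval_X, ne_eq, hab, not_false_eq_true,
        true_and]
      by_cases h1 : G.Adj a b <;> by_cases h2 : a ∈ T <;> by_cases h3 : b ∈ T <;>
        simp [h1, h2, h3]
      norm_num

theorem totalDegree_sub (G : SimpleGraph (Fin n)) (e : Sym2 (Fin n)) :
    (sub (K := K) G e).totalDegree ≤ 2 := by
  classical
  induction e using Sym2.ind with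
  | _ a b =>
    unfold sub
    split_ifs
    · simp
    · refine (totalDegree_add _ _).trans (max_le (by rw [totalDegree_C]; omega) ?_)
      refine (totalDegree_mul _ _).trans ?_
      rw [totalDegree_C, zero_add, Sym2.lift_mk]
      refine (totalDegree_mul _ _).trans ?_
      rw [totalDegree_X, totalDegree_X]

theorem sub_fun (G : SimpleGraph (Fin n)) (T : Finset (Fin n)) :
    (fun i => eval (pt K T) (sub (K := K) G i)) = ind K (symmDiff G (clq T)) := by
  funext e
  exact eval_sub G T e

theorem eval_q (G : SimpleGraph (Fin n)) (T : Finset (Fin n))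
    (p : MvPolynomial (Sym2 (Fin n)) K) :
    eval (pt K T) (bind₁ (sub G) p) = eval (ind K (symmDiff G (clq T))) p := by
  rw [eval_bind]
  rw [sub_fun]

/-- **Degree of a clique code.** -/
theorem half_le_totalDegree {F : Finset (SimpleGraph (Fin n))}
    (hF : SCode (fun _ => True) F) (hne : F.Nonempty) (p : MvPolynomial (Sym2 (Fin n)) K)
    (hp : ∀ G, eval (ind K G) p ≠ 0 ↔ G ∈ F) : n / 2 ≤ p.totalDegree := by
  classical
  obtain ⟨G, hG⟩ := hne
  set q : MvPolynomial (Fin n) K := bind₁ (sub G) p with hq
  have hqd : q.totalDegree ≤ 2 * p.totalDegree := totalDegree_bind₁_le p _ (totalDegree_sub G)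
  have hev : ∀ T : Finset (Fin n), eval (pt K T) q =
      eval (ind K (symmDiff G (clq T))) p := by
    intro T
    exact eval_q G T p
  have hsmall : ∀ T : Finset (Fin n), T.card < 2 → symmDiff G (clq T) = G := by
    intro T hT
    have : clq T = ⊥ := by
      ext a b
      simp only [clq, SimpleGraph.bot_adj, iff_false, not_and]
      intro hab ha hb
      exact absurd (Finset.one_lt_card.2 ⟨a, ha, b, hb, hab⟩) (by omega)
    rw [this]
    simp
  have hlarge : ∀ T : Finset (Fin n), 2 ≤ T.card →
      eval (pt K T) q = 0 := by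
    intro T hT
    rw [hev]
    by_contra hne
    rw [← ne_eq, hp] at hne
    refine hF G hG _ hne ?_ ⟨T, trivial, ?_⟩
    · intro h
      obtain ⟨a, ha, b, hb, hab⟩ := Finset.one_lt_card.1 hT
      have h1 : (clq T).Adj a b := ⟨hab, ha, hb⟩
      have h2 : clq T = ⊥ := by
        have := congrArg (symmDiff G) h
        rw [symmDiff_self, symmDiff_symmDiff_cancel_left] at this
        exact this.symm
      rw [h2] at h1
      exact h1
    · intro u v
      rw [symmDiff_symmDiff_cancel_left]
      rfl
  set c : K := eval (ind K G) p with hc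
  have hc0 : c ≠ 0 := (hp G).2 hG
  -- the alternating sum
  have hsum : ∀ S : Finset (Fin n),
      ∑ T ∈ S.powerset, (-1 : K) ^ T.card * eval (pt K T) q =
        c * (1 - S.card) := by
    intro S
    have h1 : ∀ T ∈ S.powerset, (-1 : K) ^ T.card * eval (pt K T) q =
        if T.card < 2 then (-1 : K) ^ T.card * c else 0 := by
      intro T _
      split_ifs with h
      · rw [hev, hsmall T h]
      · rw [hlarge T (by omega), mul_zero]
    rw [Finset.sum_congr rfl h1, Finset.sum_powerset_apply_card
      (fun k => if k < 2 then (-1 : K) ^ k * c else 0)]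
    rcases Nat.eq_zero_or_pos S.card with h0 | h0
    · rw [h0]
      simp
    · have h2 : ∑ k ∈ range (S.card + 1), S.card.choose k • (if k < 2 then (-1 : K) ^ k * c else 0)
          = ∑ k ∈ range 2, S.card.choose k • (if k < 2 then (-1 : K) ^ k * c else 0) := by
        symm
        apply Finset.sum_subset
        · intro k hk
          rw [Finset.mem_range] at hk ⊢
          omega
        · intro k _ hk
          rw [Finset.mem_range] at hk
          rw [if_neg hk, smul_zero]
      rw [h2, Finset.sum_range_succ, Finset.sum_range_one]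
      simp
      ring
  have hdeg : ∀ S : Finset (Fin n), (1 : K) - S.card ≠ 0 → S.card ≤ q.totalDegree := by
    intro S hS
    by_contra hlt
    have h1 := cube q S (by omega)
    rw [hsum S] at h1
    exact (mul_ne_zero hc0 hS) h1
  by_cases hn : (1 : K) - n = 0
  · rcases Nat.eq_zero_or_pos n with h0 | h0
    · omega
    · obtain ⟨S, -, hS⟩ := Finset.exists_subset_card_eq (s := (Finset.univ : Finset (Fin n)))
        (n := n - 1) (by simp)
      have h1 := hdeg S (by
        rw [hS, Nat.cast_sub (by omega)]
        intro h2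
        have : (1 : K) = 0 := by
          have h3 : (1 : K) - ((n : K) - (1 : ℕ)) = (1 - n) + 1 := by push_cast; ring
          rw [h3, hn, zero_add] at h2
          exact h2
        exact one_ne_zero this)
      omega
  · have h1 := hdeg Finset.univ (by simpa using hn)
    rw [Finset.card_univ, Fintype.card_fin] at h1
    omega

end

end Pool.Agent.Helper58.GC
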