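import Pool.Agent.Helper58.GC.Degree

set_option autoImplicit false

namespace Pool.Agent.Helper58.GC

open Finset MvPolynomial

/-! # A clique code of degree `n / 2` over the field with two elements -/

section
variable {n : ℕ}

/-- the edges inside `U` -/
def ed (U : Finset (Fin n)) : Finset (Sym2 (Fin n)) := U.offDiag.image (fun x => s(x.1, x.2))

theorem mem_ed {U : Finset (Fin n)} {a b : Fin n} :
    s(a, b) ∈ ed U ↔ a ≠ b ∧ a ∈ U ∧ b ∈ U := by
  unfold ed
  rw [Finset.mem_image]
  constructor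
  · rintro ⟨⟨x, y⟩, hx, he⟩
    rw [Finset.mem_offDiag] at hx
    simp only [Sym2.eq_iff] at he hx
    rcases he with ⟨rfl, rfl⟩ | ⟨rfl, rfl⟩
    · exact ⟨hx.2.2, hx.1, hx.2.1⟩
    · exact ⟨hx.2.2.symm, hx.2.1, hx.1⟩
  · rintro ⟨hab, ha, hb⟩
    exact ⟨(a, b), Finset.mem_offDiag.2 ⟨ha, hb, hab⟩, rfl⟩

theorem card_ed (U : Finset (Fin n)) : (ed U).card = U.card.choose 2 := by
  unfold ed
  exact Sym2.card_image_offDiag U

/-- the nested vertex sets -/
def vs (n j : ℕ) : Finset (Fin n) := Finset.univ.filter fun v => v.val < n - 2 * j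

/-- the polynomial of degree `n / 2` -/
noncomputable def pk (n : ℕ) : MvPolynomial (Sym2 (Fin n)) (ZMod 2) :=
  ∏ j ∈ range (n / 2), (1 + ∑ e ∈ ed (vs n j), X e)

theorem totalDegree_pk (n : ℕ) : (pk n).totalDegree ≤ n / 2 := by
  unfold pk
  refine (totalDegree_finsetProd _ _).trans ?_
  calc ∑ j ∈ range (n / 2), (1 + ∑ e ∈ ed (vs n j), X e :
        MvPolynomial (Sym2 (Fin n)) (ZMod 2)).totalDegree
      ≤ ∑ j ∈ range (n / 2), 1 := by
        apply Finset.sum_le_sum
        intro j _
        refine (totalDegree_add _ _).trans (max_le (by simp) ?_)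
        refine (totalDegree_finsetSum _ _).trans (Finset.sup_le fun e _ => ?_)
        rw [totalDegree_X]
    _ = n / 2 := by simp

theorem zmod2_one_add {x : ZMod 2} (h : 1 + x ≠ 0) : x = 0 := by
  revert x; decide

theorem ind_add (G H : SimpleGraph (Fin n)) (e : Sym2 (Fin n)) :
    ind (ZMod 2) G e + ind (ZMod 2) H e = ind (ZMod 2) (symmDiff G H) e := by
  classical
  induction e using Sym2.ind with
  | _ a b =>
    unfold ind
    simp only [SimpleGraph.mem_edgeSet, symmDiff, SimpleGraph.sup_adj, SimpleGraph.sdiff_adj]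
    by_cases h1 : G.Adj a b <;> by_cases h2 : H.Adj a b <;> simp [h1, h2]
    decide

theorem ind_clq (U S : Finset (Fin n)) :
    ∑ e ∈ ed U, ind (ZMod 2) (clq S) e = ((U ∩ S).card.choose 2 : ℕ) := by
  classical
  have h1 : ∀ e ∈ ed U, ind (ZMod 2) (clq S) e = if e ∈ ed S then 1 else 0 := by
    intro e _
    induction e using Sym2.ind with
    | _ a b =>
      unfold ind
      simp only [SimpleGraph.mem_edgeSet, mem_ed]
      exact if_congr Iff.rfl rfl rfl
  rw [Finset.sum_congr rfl h1, ← Finset.sum_filter, Finset.sum_const, nsmul_eq_mul, mul_one,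
    ← card_ed]
  congr 2
  ext e
  induction e using Sym2.ind with
  | _ a b =>
    rw [Finset.mem_filter, mem_ed, mem_ed, mem_ed, Finset.mem_inter, Finset.mem_inter]
    tauto

theorem card_inter_vs_succ (j : ℕ) (S : Finset (Fin n)) :
    (vs n j ∩ S).card ≤ (vs n (j + 1) ∩ S).card + 2 := by
  have h1 : vs n j ∩ S ⊆ (vs n (j + 1) ∩ S) ∪
      (Finset.univ.filter fun v : Fin n => v.val = n - 2 * j - 1) ∪
      (Finset.univ.filter fun v : Fin n => v.val = n - 2 * j - 2) := by
    intro v hv
    simp only [vs, Finset.mem_inter, Finset.mem_filter, Finset.mem_univ, true_and,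
      Finset.mem_union] at hv ⊢
    by_cases h2 : v.val < n - 2 * (j + 1)
    · exact Or.inl (Or.inl ⟨h2, hv.2⟩)
    · by_cases h3 : v.val = n - 2 * j - 1
      · exact Or.inl (Or.inr h3)
      · right
        omega
  have h2 : ∀ m : ℕ, (Finset.univ.filter fun v : Fin n => v.val = m).card ≤ 1 := by
    intro m
    rw [Finset.card_le_one]
    intro a ha b hb
    simp only [Finset.mem_filter, Finset.mem_univ, true_and] at ha hb
    exact Fin.ext (ha.trans hb.symm)
  have h3 := Finset.card_le_card h1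
  have h4 := Finset.card_union_le ((vs n (j + 1) ∩ S) ∪
      (Finset.univ.filter fun v : Fin n => v.val = n - 2 * j - 1))
      (Finset.univ.filter fun v : Fin n => v.val = n - 2 * j - 2)
  have h5 := Finset.card_union_le (vs n (j + 1) ∩ S)
      (Finset.univ.filter fun v : Fin n => v.val = n - 2 * j - 1)
  have h6 := h2 (n - 2 * j - 1)
  have h7 := h2 (n - 2 * j - 2)
  omega

theorem exists_odd {S : Finset (Fin n)} (hS : 2 ≤ S.card) :
    ∃ j < n / 2, (((vs n j ∩ S).card.choose 2 : ℕ) : ZMod 2) ≠ 0 := by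
  have h0 : vs n 0 ∩ S = S := by
    ext v
    simp [vs]
  have hlast : (vs n (n / 2) ∩ S).card ≤ 1 := by
    rw [Finset.card_le_one]
    intro a ha b hb
    simp only [vs, Finset.mem_inter, Finset.mem_filter, Finset.mem_univ, true_and] at ha hb
    apply Fin.ext
    omega
  -- the first `j` with at most one vertex
  have hex : ∃ j, (vs n j ∩ S).card ≤ 1 := ⟨_, hlast⟩
  classical
  have hmin := Nat.find_spec hex
  have hpos : Nat.find hex ≠ 0 := by
    intro h
    rw [h, h0] at hmin
    omega
  obtain ⟨j, hj⟩ := Nat.exists_eq_succ_of_ne_zero hpos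
  have hle : Nat.find hex ≤ n / 2 := Nat.find_min' hex hlast
  have h1 : ¬ (vs n j ∩ S).card ≤ 1 := Nat.find_min hex (by omega)
  rw [hj] at hmin
  have h2 := card_inter_vs_succ j S
  refine ⟨j, by omega, ?_⟩
  have h3 : (vs n j ∩ S).card = 2 ∨ (vs n j ∩ S).card = 3 := by
    rw [Nat.succ_eq_add_one] at hmin
    omega
  rcases h3 with h3 | h3 <;> rw [h3] <;> decide

theorem exists_code_pk (n : ℕ) : ∃ F : Finset (SimpleGraph (Fin n)),
    SCode (fun _ => True) F ∧ F.Nonempty ∧ ∀ G, eval (ind (ZMod 2) G) (pk n) ≠ 0 ↔ G ∈ F := by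
  classical
  have : Finite (SimpleGraph (Fin n)) := Finite.of_injective _ (toV_inj (V := Fin n))
  have hev : ∀ G : SimpleGraph (Fin n), eval (ind (ZMod 2) G) (pk n) ≠ 0 ↔
      ∀ j < n / 2, ∑ e ∈ ed (vs n j), ind (ZMod 2) G e = 0 := by
    intro G
    unfold pk
    rw [map_prod, Finset.prod_ne_zero_iff]
    simp only [map_add, map_one, map_sum, eval_X, Finset.mem_range]
    constructor
    · intro h j hj
      exact zmod2_one_add (h j hj)
    · intro h j hj
      rw [h j hj]
      decide
  refine ⟨(Set.toFinite {G : SimpleGraph (Fin n) | eval (ind (ZMod 2) G) (pk n) ≠ 0}).toFinset,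
    ?_, ⟨⊥, ?_⟩, fun G => by simp⟩
  · intro G hG H hH hGH
    rw [Set.Finite.mem_toFinset, Set.mem_ofPred_eq, hev] at hG hH
    rintro ⟨S, -, hS⟩
    have e : symmDiff G H = clq S := by
      ext u v
      exact hS u v
    have h2 : 2 ≤ S.card := by
      by_contra hlt
      apply hGH
      rw [← symmDiff_eq_bot, e]
      ext a b
      simp only [clq, SimpleGraph.bot_adj, iff_false, not_and]
      intro hab ha hb
      exact absurd (Finset.one_lt_card.2 ⟨a, ha, b, hb, hab⟩) (by omega)
    obtain ⟨j, hj, hodd⟩ := exists_odd h2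
    apply hodd
    rw [← ind_clq, ← e, Finset.sum_congr rfl fun e _ => (ind_add G H e).symm,
      Finset.sum_add_distrib, hG j hj, hH j hj, add_zero]
  · rw [Set.Finite.mem_toFinset, Set.mem_ofPred_eq, hev]
    intro j _
    apply Finset.sum_eq_zero
    intro e _
    unfold ind
    simp

end

end Pool.Agent.Helper58.GC
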