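import Pool.Agent.Helper58.GC.Seven

set_option autoImplicit false

namespace Pool.Agent.Helper58.GC

open Finset Filter Topology

/-! # The exponential rate -/

theorem dE_pos (n : ℕ) : 0 < dE n := (dK_pos n).trans_le (dK_le_dE n)

/-- the main lower bound: every even clique code yields large clique codes -/
theorem lower {b : ℕ} (hb : 2 ≤ b) {θ : ℝ} (h0 : 0 < θ) (h : θ ^ (b - 1) < dE b) :
    ∃ c : ℝ, 0 < c ∧ ∀ n, c * θ ^ n ≤ dK n := by
  have hθ : θ < 1 := by
    by_contra hne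
    push Not at hne
    have h1 : (1 : ℝ) ≤ θ ^ (b - 1) := one_le_pow₀ hne
    linarith [dE_le_one b]
  have hp : 0 < θ ^ (b - 1) := pow_pos h0 _
  set q := dE b / θ ^ (b - 1) with hq
  have hq1 : 1 < q := by rw [hq, lt_div_iff₀ hp, one_mul]; exact h
  have hqE : dE b = q * θ ^ (b - 1) := by rw [hq]; field_simp
  obtain ⟨k0, hk0⟩ := pow_unbounded_of_one_lt ((2 : ℝ) ^ b.choose 2) hq1
  refine ⟨1 / 2 ^ (b * (k0 + 1)).choose 2, by positivity, fun n => ?_⟩
  induction n using Nat.strong_induction_on with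
  | _ n ih =>
    by_cases hn : n < b * (k0 + 1)
    · calc 1 / 2 ^ (b * (k0 + 1)).choose 2 * θ ^ n ≤ 1 / 2 ^ (b * (k0 + 1)).choose 2 * 1 := by
            gcongr
            exact pow_le_one₀ h0.le hθ.le
        _ = 1 / 2 ^ (b * (k0 + 1)).choose 2 := mul_one _
        _ ≤ 1 / 2 ^ n.choose 2 := by
            have : n.choose 2 ≤ (b * (k0 + 1)).choose 2 := Nat.choose_le_choose 2 hn.le
            gcongr
            norm_num
        _ ≤ dK n := dK_ge n
    · push Not at hn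
      set k := n / b with hk
      set r := n % b with hr
      have hnk : b * k + r = n := Nat.div_add_mod n b
      have hkk : k0 + 1 ≤ k := by
        rw [hk, Nat.le_div_iff_mul_le (by omega), mul_comm]
        exact hn
      have hlt : k + r < n := by
        rw [← hnk]
        have : 2 * k ≤ b * k := Nat.mul_le_mul_right _ hb
        omega
      have h1 := ih (k + r) hlt
      have h2 := comp_dK (k := k) (b := b) (r := r) (by omega)
      rw [hnk] at h2
      have hA : (2 : ℝ) ^ b.choose 2 ≤ q ^ k :=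
        hk0.le.trans (pow_le_pow_right₀ hq1.le (by omega))
      set c := (1 : ℝ) / 2 ^ (b * (k0 + 1)).choose 2 with hc
      have hc0 : 0 < c := by rw [hc]; positivity
      have h3 : dE b ^ k * (c * θ ^ (k + r)) ≤ dK n * 2 ^ b.choose 2 :=
        (mul_le_mul_of_nonneg_left h1 (pow_nonneg (dE_pos b).le _)).trans h2
      have h4 : dE b ^ k * (c * θ ^ (k + r)) = c * θ ^ n * q ^ k := by
        have e : n = (b - 1) * k + (k + r) := by
          rw [← hnk]
          obtain ⟨b', rfl⟩ : ∃ b', b = b' + 1 := ⟨b - 1, by omega⟩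
          simp only [Nat.add_sub_cancel]
          ring
        rw [hqE, mul_pow, ← pow_mul]
        conv_rhs => rw [e, pow_add]
        ring
      rw [h4] at h3
      have h5 : c * θ ^ n * 2 ^ b.choose 2 ≤ c * θ ^ n * q ^ k :=
        mul_le_mul_of_nonneg_left hA (by positivity)
      exact le_of_mul_le_mul_right (h5.trans h3) (by positivity)

/-- the explicit bound -/
theorem lower_explicit : ∃ c : ℝ, 0 < c ∧ ∀ n, c * (0.785 : ℝ) ^ n ≤ dK n := by
  refine lower (b := 7) (by norm_num) (by norm_num) (lt_of_lt_of_le ?_ dE_seven)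
  norm_num

/-- the exponential rate -/
noncomputable def rho : ℝ := sSup {x : ℝ | ∃ b : ℕ, 2 ≤ b ∧ x = dE b ^ (1 / ((b : ℝ) - 1))}

theorem rho_bdd : BddAbove {x : ℝ | ∃ b : ℕ, 2 ≤ b ∧ x = dE b ^ (1 / ((b : ℝ) - 1))} := by
  refine ⟨1, ?_⟩
  rintro x ⟨b, hb, rfl⟩
  have : (2 : ℝ) ≤ b := by exact_mod_cast hb
  exact Real.rpow_le_one (dE_pos b).le (dE_le_one b) (by
    apply div_nonneg zero_le_one; linarith)

theorem le_rho {b : ℕ} (hb : 2 ≤ b) : dE b ^ (1 / ((b : ℝ) - 1)) ≤ rho :=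
  le_csSup rho_bdd ⟨b, hb, rfl⟩

theorem rho_ne : {x : ℝ | ∃ b : ℕ, 2 ≤ b ∧ x = dE b ^ (1 / ((b : ℝ) - 1))}.Nonempty :=
  ⟨_, 2, le_refl _, rfl⟩

theorem rho_le_one : rho ≤ 1 := by
  unfold rho
  apply csSup_le rho_ne
  rintro x ⟨b, hb, rfl⟩
  have : (2 : ℝ) ≤ b := by exact_mod_cast hb
  exact Real.rpow_le_one (dE_pos b).le (dE_le_one b) (by
    apply div_nonneg zero_le_one; linarith)

theorem rho_ge : ((15 : ℝ) / 64) ^ ((1 : ℝ) / 6) ≤ rho := by
  refine le_trans ?_ (le_rho (b := 7) (by norm_num))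
  have e : (1 : ℝ) / 6 = 1 / (((7 : ℕ) : ℝ) - 1) := by norm_num
  rw [e]
  exact Real.rpow_le_rpow (by norm_num) dE_seven (by norm_num)

theorem rho_pos : 0 < rho := lt_of_lt_of_le (by positivity) rho_ge

theorem dE_le_rho {n : ℕ} (hn : 2 ≤ n) :
    dE n ^ (1 / (n : ℝ)) ≤ rho ^ (1 - 1 / (n : ℝ)) := by
  have h2 : (2 : ℝ) ≤ n := by exact_mod_cast hn
  have e : dE n ^ (1 / (n : ℝ)) = (dE n ^ (1 / ((n : ℝ) - 1))) ^ (1 - 1 / (n : ℝ)) := by
    rw [← Real.rpow_mul (dE_pos n).le]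
    congr 1
    have : (n : ℝ) ≠ 0 := by linarith
    have : (n : ℝ) - 1 ≠ 0 := by linarith
    field_simp
  rw [e]
  apply Real.rpow_le_rpow (by have := dE_pos n; positivity) (le_rho hn)
  have : 1 / (n : ℝ) ≤ 1 := by rw [div_le_one (by linarith)]; linarith
  linarith

theorem lower_rho {θ : ℝ} (h0 : 0 < θ) (h : θ < rho) :
    ∃ c : ℝ, 0 < c ∧ ∀ n, c * θ ^ n ≤ dK n := by
  obtain ⟨x, ⟨b, hb, rfl⟩, hx⟩ := exists_lt_of_lt_csSup rho_ne h
  refine lower hb h0 ?_
  have hb2 : (2 : ℝ) ≤ b := by exact_mod_cast hb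
  have h1 : θ ^ ((b : ℝ) - 1) < (dE b ^ (1 / ((b : ℝ) - 1))) ^ ((b : ℝ) - 1) :=
    Real.rpow_lt_rpow h0.le hx (by linarith)
  rw [← Real.rpow_mul (dE_pos b).le, one_div, inv_mul_cancel₀ (by linarith), Real.rpow_one] at h1
  rw [← Real.rpow_natCast, Nat.cast_sub (by omega)]
  simpa using h1

theorem eventually_gt {a : ℝ} (ha : a < rho) : ∀ᶠ n : ℕ in atTop, a < dK n ^ (1 / (n : ℝ)) := by
  obtain ⟨θ, h1, h2⟩ := exists_between (max_lt ha rho_pos)
  have hθ : 0 < θ := lt_of_le_of_lt (le_max_right _ _) h1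
  have haθ : a < θ := lt_of_le_of_lt (le_max_left _ _) h1
  obtain ⟨c, hc, h⟩ := lower_rho hθ h2
  have hlim : Tendsto (fun n : ℕ => c ^ (1 / (n : ℝ)) * θ) atTop (𝓝 (c ^ (0 : ℝ) * θ)) := by
    apply Tendsto.mul_const
    have h3 : Tendsto (fun n : ℕ => 1 / (n : ℝ)) atTop (𝓝 0) := tendsto_one_div_atTop_nhds_zero_nat
    exact Tendsto.rpow tendsto_const_nhds h3 (Or.inl hc.ne')
  rw [Real.rpow_zero, one_mul] at hlim
  filter_upwards [hlim.eventually_const_lt haθ, eventually_ge_atTop 1] with n hn hn1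
  refine hn.trans_le ?_
  have hn0 : (n : ℝ) ≠ 0 := by
    have : (1 : ℝ) ≤ n := by exact_mod_cast hn1
    linarith
  have e : c ^ (1 / (n : ℝ)) * θ = (c * θ ^ n) ^ (1 / (n : ℝ)) := by
    rw [Real.mul_rpow hc.le (pow_nonneg hθ.le _), ← Real.rpow_natCast, ← Real.rpow_mul hθ.le]
    congr 1
    rw [mul_one_div_cancel hn0, Real.rpow_one]
  rw [e]
  exact Real.rpow_le_rpow (by positivity) (h n) (by positivity)

theorem eventually_lt {a : ℝ} (ha : rho < a) : ∀ᶠ n : ℕ in atTop, dE n ^ (1 / (n : ℝ)) < a := by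
  have hlim : Tendsto (fun n : ℕ => rho ^ (1 - 1 / (n : ℝ))) atTop (𝓝 (rho ^ ((1 : ℝ) - 0))) := by
    have h3 : Tendsto (fun n : ℕ => 1 / (n : ℝ)) atTop (𝓝 0) := tendsto_one_div_atTop_nhds_zero_nat
    exact Tendsto.rpow tendsto_const_nhds (tendsto_const_nhds.sub h3) (Or.inl rho_pos.ne')
  rw [sub_zero, Real.rpow_one] at hlim
  filter_upwards [hlim.eventually_lt_const ha, eventually_ge_atTop 2] with n hn hn2
  exact (dE_le_rho hn2).trans_lt hn

theorem rpow_le {n : ℕ} : dK n ^ (1 / (n : ℝ)) ≤ dE n ^ (1 / (n : ℝ)) :=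
  Real.rpow_le_rpow (dK_pos n).le (dK_le_dE n) (by positivity)

theorem tendsto_dK : Tendsto (fun n : ℕ => dK n ^ (1 / (n : ℝ))) atTop (𝓝 rho) := by
  rw [tendsto_order]
  refine ⟨fun a ha => eventually_gt ha, fun a ha => ?_⟩
  filter_upwards [eventually_lt ha] with n hn
  exact rpow_le.trans_lt hn

theorem tendsto_dE : Tendsto (fun n : ℕ => dE n ^ (1 / (n : ℝ))) atTop (𝓝 rho) := by
  rw [tendsto_order]
  refine ⟨fun a ha => ?_, fun a ha => eventually_lt ha⟩
  filter_upwards [eventually_gt ha] with n hn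
  exact hn.trans_le rpow_le

end Pool.Agent.Helper58.GC
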