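import Pool.Agent.Helper58.GC.Comp

set_option autoImplicit false

namespace Pool.Agent.Helper58.GC

open Finset

/-! # An even clique code on 7 vertices of density `120 / 512`

The 21 edges get labels in `F_2^9` (Hermitian `3 × 3` matrices over `F_4`) such that the sum over
an even clique is the label of a matrix of rank one; the 120 labels of the code correspond to the
120 Baer subplanes of one class of `PG(2,4)`, i.e. to the octads of the Golay code that contain
one and avoid two given points. -/

/-- edges with their labels -/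
def lab : List (ℕ × ℕ × ℕ) :=
  [(0, 1, 1), (0, 2, 1), (0, 3, 2), (0, 4, 2), (0, 5, 4), (0, 6, 4), (1, 2, 1), (1, 3, 8),
   (1, 4, 16), (1, 5, 32), (1, 6, 64), (2, 3, 27), (2, 4, 8), (2, 5, 101), (2, 6, 32), (3, 4, 2),
   (3, 5, 128), (3, 6, 256), (4, 5, 390), (4, 6, 128), (5, 6, 4)]

/-- the code, as a bit mask -/
def YM : ℕ := 0x42141449944242241861821442142982904040204284291206080801294096202940409642848449060808019040402006010108816812844996204006010108

/-- label of the clique on the set of vertices coded by the bits of `u` -/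
def gU (u : ℕ) : ℕ :=
  lab.foldr (fun t a => Nat.xor (if u.testBit t.1 && u.testBit t.2.1 then t.2.2 else 0) a) 0

def pc (u : ℕ) : ℕ := ((List.range 7).filter fun i => u.testBit i).length

def chk1 : Bool :=
  (List.range 128).all fun u => Nat.ble (gU u) 511 &&
    (!(decide (2 ≤ pc u) && decide (pc u % 2 = 0)) ||
    ((List.range 512).all fun y => !(YM.testBit y && YM.testBit (Nat.xor y (gU u)))))

theorem chk1_true : chk1 = true := by decide +kernel

theorem chk2 : ((Finset.range 512).filter fun y => YM.testBit y = true).card = 120 := by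
  decide +kernel

theorem pc_eq : ∀ u, u < 128 → pc u = (Finset.univ.filter fun i : Fin 7 => u.testBit i).card := by
  decide +kernel

theorem chk1_spec {u : ℕ} (hu : u < 128) : gU u < 512 ∧ (2 ≤ pc u → Even (pc u) →
    ∀ y, y < 512 → YM.testBit y = true → YM.testBit (Nat.xor y (gU u)) = false) := by
  have h := chk1_true
  unfold chk1 at h
  rw [List.all_eq_true] at h
  have h1 := h u (List.mem_range.2 hu)
  rw [Bool.and_eq_true] at h1
  refine ⟨Nat.lt_succ_of_le (Nat.le_of_ble_eq_true h1.1), fun h2 h3 y hy hY => ?_⟩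
  have h4 := h1.2
  have h5 : (decide (2 ≤ pc u) && decide (pc u % 2 = 0)) = true := by
    rw [Bool.and_eq_true]
    exact ⟨decide_eq_true h2, decide_eq_true (Nat.even_iff.1 h3)⟩
  rw [h5, Bool.not_true, Bool.false_or, List.all_eq_true] at h4
  have h6 := h4 y (List.mem_range.2 hy)
  rw [hY, Bool.true_and] at h6
  simpa using h6

/-! ### The homomorphism -/

abbrev Z9 := Fin 9 → ZMod 2

def bits (y : ℕ) : Z9 := fun i => if y.testBit i then 1 else 0

theorem bits_xor (x y : ℕ) : bits (Nat.xor x y) = bits x + bits y := by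
  funext i
  have h : (Nat.xor x y).testBit i = (x.testBit i ^^ y.testBit i) := Nat.testBit_xor x y i
  simp only [bits, Pi.add_apply, h]
  cases x.testBit i <;> cases y.testBit i <;> decide

theorem bits_zero : bits 0 = 0 := by
  funext i
  simp [bits]

theorem bits_inj {x y : ℕ} (hx : x < 512) (hy : y < 512) (h : bits x = bits y) : x = y := by
  apply Nat.eq_of_testBit_eq
  intro i
  by_cases hi : i < 9
  · have h1 := congrFun h ⟨i, hi⟩
    simp only [bits] at h1
    cases hx1 : x.testBit i <;> cases hy1 : y.testBit i <;> rw [hx1, hy1] at h1 <;>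
      simp at h1
  · have h2 : 512 ≤ 2 ^ i := by
      calc 512 = 2 ^ 9 := by norm_num
        _ ≤ 2 ^ i := Nat.pow_le_pow_right (by norm_num) (by omega)
    rw [Nat.testBit_lt_two_pow (by omega), Nat.testBit_lt_two_pow (by omega)]

/-- value at an edge -/
def ev (i j : Fin 7) : GV (Fin 7) →+ ZMod 2 where
  toFun G := if h : i = j then 0 else G ⟨s(i, j), by simpa using h⟩
  map_zero' := by split_ifs <;> rfl
  map_add' G H := by split_ifs <;> simp

theorem ev_cl {i j : Fin 7} (h : i ≠ j) (U : Finset (Fin 7)) :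
    ev i j (cl U) = if i ∈ U ∧ j ∈ U then 1 else 0 := by
  show (if h : i = j then 0 else cl U ⟨s(i, j), _⟩) = _
  rw [dif_neg h, cl_mk]

def fi (n : ℕ) : Fin 7 := Fin.ofNat 7 n

/-- the sum of the labels of the edges -/
def psiL (l : List (ℕ × ℕ × ℕ)) : GV (Fin 7) →+ Z9 where
  toFun G := (l.map fun t => (fun i => ev (fi t.1) (fi t.2.1) G * bits t.2.2 i : Z9)).sum
  map_zero' := by
    have h : (fun t : ℕ × ℕ × ℕ => (fun i => ev (fi t.1) (fi t.2.1) (0 : GV (Fin 7)) *
        bits t.2.2 i : Z9)) = fun _ => (0 : Z9) := by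
      funext t i
      rw [map_zero, zero_mul]
      rfl
    rw [h]
    simp
  map_add' G H := by
    induction l with
    | nil => simp
    | cons t l ih =>
      rw [List.map_cons, List.map_cons, List.map_cons, List.sum_cons, List.sum_cons,
        List.sum_cons, ih, map_add]
      funext i
      simp only [Pi.add_apply]
      ring

theorem psiL_cons (t : ℕ × ℕ × ℕ) (l : List (ℕ × ℕ × ℕ)) (G : GV (Fin 7)) :
    psiL (t :: l) G = (fun i => ev (fi t.1) (fi t.2.1) G * bits t.2.2 i) + psiL l G := by
  show ((t :: l).map fun t => (fun i => ev (fi t.1) (fi t.2.1) G * bits t.2.2 i : Z9)).sum = _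
  rw [List.map_cons, List.sum_cons]
  rfl

theorem psiL_cl {u : ℕ} {U : Finset (Fin 7)} (hu : ∀ i : Fin 7, u.testBit i = decide (i ∈ U)) :
    ∀ l : List (ℕ × ℕ × ℕ), (∀ t ∈ l, t.1 < t.2.1 ∧ t.2.1 < 7) →
      psiL l (cl U) = bits (l.foldr (fun t a =>
        Nat.xor (if u.testBit t.1 && u.testBit t.2.1 then t.2.2 else 0) a) 0) := by
  intro l
  induction l with
  | nil =>
    intro _
    funext i
    simp [psiL, bits]
  | cons t l ih =>
    intro h
    obtain ⟨h1, h2⟩ := h t List.mem_cons_self
    rw [psiL_cons, ih fun t' ht' => h t' (List.mem_cons_of_mem _ ht'), List.foldr_cons, bits_xor]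
    congr 1
    have e1 : ((fi t.1 : Fin 7) : ℕ) = t.1 := Nat.mod_eq_of_lt (by omega)
    have e2 : ((fi t.2.1 : Fin 7) : ℕ) = t.2.1 := Nat.mod_eq_of_lt h2
    have hne : fi t.1 ≠ fi t.2.1 := by
      intro he
      rw [Fin.ext_iff, e1, e2] at he
      omega
    have g1 := hu (fi t.1)
    have g2 := hu (fi t.2.1)
    rw [e1] at g1
    rw [e2] at g2
    rw [ev_cl hne, g1, g2]
    by_cases k1 : fi t.1 ∈ U
    · by_cases k2 : fi t.2.1 ∈ U
      · simp [k1, k2]
      · simp only [k1, k2, and_false, if_false, zero_mul, decide_true, decide_false,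
          Bool.and_false, Bool.false_eq_true, bits_zero]
        rfl
    · simp only [k1, false_and, if_false, zero_mul, decide_false, Bool.false_and,
        Bool.false_eq_true, bits_zero]
      rfl

def psi : GV (Fin 7) →+ Z9 := psiL lab

/-- edges with independent labels -/
def bas : Fin 9 → Fin 7 × Fin 7 :=
  ![(0, 1), (0, 3), (0, 5), (1, 3), (1, 4), (1, 5), (1, 6), (3, 5), (3, 6)]

def dl (t : Fin 9) : GV (Fin 7) := fun e => if e.1 = s((bas t).1, (bas t).2) then 1 else 0

theorem psi_dl : ∀ t : Fin 9, psi (dl t) = Pi.single t 1 := by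
  decide +kernel

theorem psi_surj : Function.Surjective psi := by
  intro z
  refine ⟨∑ t, if z t = 1 then dl t else 0, ?_⟩
  rw [map_sum]
  have h1 : ∀ t, psi (if z t = 1 then dl t else 0) = Pi.single t (z t) := by
    intro t
    have h2 : z t = 0 ∨ z t = 1 := by
      generalize z t = x
      revert x
      decide
    rcases h2 with h2 | h2
    · rw [h2, if_neg (by decide), map_zero, Pi.single_zero]
    · rw [h2, if_pos rfl, psi_dl]
  rw [Finset.sum_congr rfl fun t _ => h1 t]
  exact Finset.univ_sum_single z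

/-- the code in the quotient -/
def Y9 : Finset Z9 := ((Finset.range 512).filter fun y => YM.testBit y = true).image bits

theorem card_Y9 : Y9.card = 120 := by
  unfold Y9
  rw [Finset.card_image_of_injOn]
  · exact chk2
  · intro x hx y hy h
    rw [Finset.coe_filter, Set.mem_ofPred_eq, Finset.mem_range] at hx hy
    exact bits_inj hx.1 hy.1 h

theorem code7 : IsCode Even (pre psi Y9) := by
  intro G hG U hU hP hGU
  rw [mem_pre] at hG hGU
  unfold Y9 at hG hGU
  rw [Finset.mem_image] at hG hGU
  obtain ⟨y, hy, hyG⟩ := hG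
  obtain ⟨y', hy', hyG'⟩ := hGU
  rw [Finset.mem_filter, Finset.mem_range] at hy hy'
  -- the code of `U`
  let u : ℕ := Nat.ofBits fun i : Fin 7 => decide (i ∈ U)
  have hu : ∀ i : Fin 7, u.testBit i = decide (i ∈ U) := by
    intro i
    exact Nat.testBit_ofBits_lt _ _ i.2
  have hlt : u < 128 := Nat.ofBits_lt_two_pow _
  have hcard : pc u = U.card := by
    rw [pc_eq u hlt]
    congr 1
    ext i
    rw [Finset.mem_filter, hu i]
    simp
  obtain ⟨hg, hc⟩ := chk1_spec hlt
  have h1 : psi (cl U) = bits (gU u) := psiL_cl hu lab (by decide)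
  rw [map_add, h1, ← hyG, ← bits_xor] at hyG'
  have hx : Nat.xor y (gU u) < 512 := Nat.xor_lt_two_pow (n := 9) hy.1 hg
  have h2 := bits_inj hy'.1 hx hyG'
  have h3 := hc (by rw [hcard]; exact hU) (by rw [hcard]; exact hP) y hy.1 hy.2
  rw [← h2, hy'.2] at h3
  exact Bool.noConfusion h3

theorem dE_seven : (15 : ℝ) / 64 ≤ dE 7 := by
  have h1 := le_M code7
  have h2 := card_preimage psi psi_surj Y9
  rw [card_Y9, card_GV] at h2
  have h3 : Fintype.card Z9 = 512 := by
    rw [Fintype.card_fun, ZMod.card, Fintype.card_fin]; norm_num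
  rw [h3] at h2
  have h4 : (120 * 2 ^ (7 : ℕ).choose 2 : ℕ) ≤ M (Fin 7) Even * 512 := by
    rw [← h2]
    exact Nat.mul_le_mul_right _ h1
  have h5 : (120 * 2 ^ (7 : ℕ).choose 2 : ℝ) ≤ M (Fin 7) Even * 512 := by exact_mod_cast h4
  unfold dE
  rw [le_div_iff₀ (by positivity)]
  linarith

end Pool.Agent.Helper58.GC
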