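import Pool.Agent.Helper58.GC.DegreeB

set_option autoImplicit false

namespace Pool.Agent.Helper58.GC

open Finset MvPolynomial

/-! # Clique codes given by thresholds of parities -/

section
variable {n : ℕ}

/-- the parity of the number of edges of `G` in `E` -/
noncomputable def par (E : Finset (Sym2 (Fin n))) (G : SimpleGraph (Fin n)) : ZMod 2 :=
  ∑ e ∈ E, ind (ZMod 2) G e

theorem par_symmDiff (E : Finset (Sym2 (Fin n))) (G H : SimpleGraph (Fin n)) :
    par E (symmDiff G H) = par E G + par E H := by
  unfold par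
  rw [← Finset.sum_add_distrib]
  exact Finset.sum_congr rfl fun e _ => (ind_add G H e).symm

/-- the character -/
noncomputable def chr (E : Finset (Sym2 (Fin n))) (G : SimpleGraph (Fin n)) : ℝ :=
  if par E G = 0 then 1 else -1

theorem exists_clique (J : Finset (Finset (Sym2 (Fin n)))) (hJ : J.card < n / 2) :
    ∃ S : Finset (Fin n), 2 ≤ S.card ∧ ∀ E ∈ J, par E (clq S) = 0 := by
  classical
  set p : MvPolynomial (Sym2 (Fin n)) (ZMod 2) := ∏ E ∈ J, (1 + ∑ e ∈ E, X e) with hp
  have hdeg : p.totalDegree ≤ J.card := by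
    rw [hp]
    refine (totalDegree_finsetProd _ _).trans ?_
    calc ∑ E ∈ J, (1 + ∑ e ∈ E, X e : MvPolynomial (Sym2 (Fin n)) (ZMod 2)).totalDegree
        ≤ ∑ E ∈ J, 1 := by
          apply Finset.sum_le_sum
          intro E _
          refine (totalDegree_add _ _).trans (max_le (by simp) ?_)
          refine (totalDegree_finsetSum _ _).trans (Finset.sup_le fun e _ => ?_)
          rw [totalDegree_X]
      _ = J.card := by simp
  have hev : ∀ G : SimpleGraph (Fin n), eval (ind (ZMod 2) G) p ≠ 0 ↔
      ∀ E ∈ J, par E G = 0 := by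
    intro G
    rw [hp, map_prod, Finset.prod_ne_zero_iff]
    simp only [map_add, map_one, map_sum, eval_X]
    constructor
    · intro h E hE
      exact zmod2_one_add (h E hE)
    · intro h E hE
      have h1 := h E hE
      unfold par at h1
      rw [h1]
      decide
  set F : Finset (SimpleGraph (Fin n)) :=
    Finset.univ.filter fun G => eval (ind (ZMod 2) G) p ≠ 0 with hF
  have hmem : ∀ G, G ∈ F ↔ ∀ E ∈ J, par E G = 0 := by
    intro G
    rw [hF, Finset.mem_filter, hev]
    simp
  by_contra hcon
  push Not at hcon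
  have hcode : SCode (fun _ => True) F := by
    intro G hG H hH hGH
    rw [hmem] at hG hH
    rintro ⟨S, -, hS⟩
    have e : symmDiff G H = clq S := by
      ext u v
      exact hS u v
    have h2 : 2 ≤ S.card := by
      by_contra hlt
      apply hGH
      rw [← symmDiff_eq_bot, e]
      ext a b
      simp only [clq, SimpleGraph.bot_adj, iff_false, not_and]
      intro hab ha hb
      exact absurd (Finset.one_lt_card.2 ⟨a, ha, b, hb, hab⟩) (by omega)
    obtain ⟨E, hE, hne⟩ := hcon S h2
    apply hne
    rw [← e, par_symmDiff, hG E hE, hH E hE, add_zero]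
  have hne : F.Nonempty := by
    refine ⟨⊥, ?_⟩
    rw [hmem]
    intro E _
    unfold par
    apply Finset.sum_eq_zero
    intro e _
    unfold ind
    simp
  have := half_le_totalDegree hcode hne p (fun G => by rw [hF, Finset.mem_filter]; simp)
  omega

/-- affine sets of graphs -/
structure Aff (V : Finset (SimpleGraph (Fin n))) (J : Finset (Finset (Sym2 (Fin n)))) : Prop where
  ne : V.Nonempty
  add : ∀ G ∈ V, ∀ H ∈ V, ∀ L ∈ V, symmDiff G (symmDiff H L) ∈ V
  inv : ∀ G ∈ V, ∀ D : SimpleGraph (Fin n), (∀ E ∈ J, par E D = 0) → symmDiff G D ∈ V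

theorem clq_ne_bot {S : Finset (Fin n)} (h : 2 ≤ S.card) : clq S ≠ ⊥ := by
  obtain ⟨a, ha, b, hb, hab⟩ := Finset.one_lt_card.1 h
  intro h0
  have h1 : (clq S).Adj a b := ⟨hab, ha, hb⟩
  rw [h0] at h1
  exact h1

open Classical in
/-- a code contains at most half of an affine set of small codimension -/
theorem half {F V : Finset (SimpleGraph (Fin n))} {J : Finset (Finset (Sym2 (Fin n)))}
    (hF : SCode (fun _ => True) F) (hV : Aff V J) (hJ : J.card < n / 2) :
    2 * (V.filter (· ∈ F)).card ≤ V.card := by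
  obtain ⟨S, hS, hpar⟩ := exists_clique J hJ
  have h1 : (V.filter (· ∈ F)).card ≤ (V.filter fun G => G ∉ F).card := by
    apply Finset.card_le_card_of_injOn (fun G => symmDiff G (clq S))
    · intro G hG
      simp only [Finset.coe_filter, Set.mem_ofPred_eq] at hG ⊢
      refine ⟨hV.inv G hG.1 _ hpar, fun h => ?_⟩
      refine hF G hG.2 _ h ?_ ⟨S, trivial, fun u v => ?_⟩
      · intro he
        apply clq_ne_bot hS
        have := congrArg (symmDiff G) he
        rw [symmDiff_self, symmDiff_symmDiff_cancel_left] at this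
        exact this.symm
      · rw [symmDiff_symmDiff_cancel_left]
        rfl
    · intro G _ H _ h
      simp only at h
      exact symmDiff_left_injective _ h
  have h2 := Finset.card_filter_add_card_filter_not (s := V) (fun G => G ∈ F)
  omega

open Classical in
theorem card_split {V : Finset (SimpleGraph (Fin n))} {J : Finset (Finset (Sym2 (Fin n)))}
    (hV : Aff V J) (E : Finset (Sym2 (Fin n))) {A B : SimpleGraph (Fin n)} (hA : A ∈ V)
    (hB : B ∈ V) (h : par E A ≠ par E B) (s : ZMod 2) :
    2 * (V.filter fun G => par E G = s).card = V.card ∧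
      Aff (V.filter fun G => par E G = s) (insert E J) := by
  have hAB : par E (symmDiff A B) = 1 := by
    rw [par_symmDiff]
    revert h
    generalize par E A = x
    generalize par E B = y
    revert x y
    decide
  have hcard : ∀ t : ZMod 2, (V.filter fun G => par E G = t).card ≤
      (V.filter fun G => par E G = t + 1).card := by
    intro t
    apply Finset.card_le_card_of_injOn (fun G => symmDiff G (symmDiff A B))
    · intro G hG
      simp only [Finset.coe_filter, Set.mem_ofPred_eq] at hG ⊢
      refine ⟨hV.add G hG.1 A hA B hB, ?_⟩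
      rw [par_symmDiff, hG.2, hAB]
    · intro G _ H _ h
      simp only at h
      exact symmDiff_left_injective _ h
  have hnot : ∀ t : ZMod 2, (V.filter fun G => ¬ par E G = t) =
      V.filter fun G => par E G = t + 1 := by
    intro t
    apply Finset.filter_congr
    intro G _
    generalize par E G = x
    revert x t
    decide
  have htt : s + 1 + 1 = s := by revert s; decide
  have h1 := hcard s
  have h2 := hcard (s + 1)
  rw [htt] at h2
  have h3 := Finset.card_filter_add_card_filter_not (s := V) (fun G => par E G = s)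
  rw [hnot s] at h3
  refine ⟨by omega, ?_, ?_, ?_⟩
  · rw [← Finset.card_pos]
    have := Finset.card_pos.2 hV.ne
    omega
  · intro G hG H hH L hL
    simp only [Finset.mem_filter] at hG hH hL ⊢
    refine ⟨hV.add G hG.1 H hH.1 L hL.1, ?_⟩
    rw [par_symmDiff, par_symmDiff, hG.2, hH.2, hL.2]
    have h4 : ∀ s : ZMod 2, s + (s + s) = s := by decide
    exact h4 s
  · intro G hG D hD
    simp only [Finset.mem_filter] at hG ⊢
    refine ⟨hV.inv G hG.1 D fun E' hE' => hD E' (Finset.mem_insert_of_mem hE'), ?_⟩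
    rw [par_symmDiff, hG.2, hD E (Finset.mem_insert_self _ _), add_zero]

open Classical in
/-- density increment -/
theorem increment {F V : Finset (SimpleGraph (Fin n))} {J : Finset (Finset (Sym2 (Fin n)))}
    (hV : Aff V J) {s : ℕ} (E : Fin s → Finset (Sym2 (Fin n))) (c0 : ℝ) (c : Fin s → ℝ) {W : ℝ}
    (hW : 0 < W) (hc : ∑ j, |c j| ≤ W)
    (h1 : ∀ G ∈ F, 1 ≤ c0 + ∑ j, c j * chr (E j) G)
    (h2 : ∀ G, G ∉ F → c0 + ∑ j, c j * chr (E j) G ≤ -1) {a : ℝ} (ha : 0 < a) (ha2 : a ≤ 1 / 2)
    (hd : ((V.filter (· ∈ F)).card : ℝ) = a * V.card) :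
    ∃ (E' : Finset (Sym2 (Fin n))) (V' : Finset (SimpleGraph (Fin n))), Aff V' (insert E' J) ∧
      a * (1 + 1 / W) * V'.card ≤ (V'.filter (· ∈ F)).card := by
  set f : SimpleGraph (Fin n) → ℝ := fun G => (if G ∈ F then 1 else 0) - a with hf
  have hN : (0 : ℝ) < V.card := by exact_mod_cast Finset.card_pos.2 hV.ne
  have hsumf : ∑ G ∈ V, f G = 0 := by
    rw [hf, Finset.sum_sub_distrib, Finset.sum_const, ← Finset.sum_filter, Finset.sum_const,
      nsmul_eq_mul, nsmul_eq_mul, hd]
    ring
  -- correlation with g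
  have hcor : 2 * a * (1 - a) * V.card ≤ ∑ G ∈ V, f G * (c0 + ∑ j, c j * chr (E j) G) := by
    have hpt : ∀ G ∈ V, (if G ∈ F then (1 - a) else a) ≤
        f G * (c0 + ∑ j, c j * chr (E j) G) := by
      intro G _
      simp only [hf]
      split_ifs with h
      · have := h1 G h
        nlinarith
      · have := h2 G h
        nlinarith
    refine le_trans (le_of_eq ?_) (Finset.sum_le_sum hpt)
    have h3 : ∀ G ∈ V, (if G ∈ F then (1 - a) else a) = a + (1 - 2 * a) * (if G ∈ F then 1 else 0)
        := by
      intro G _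
      split_ifs <;> ring
    rw [Finset.sum_congr rfl h3, Finset.sum_add_distrib, Finset.sum_const, ← Finset.mul_sum,
      ← Finset.sum_filter, Finset.sum_const, nsmul_eq_mul, nsmul_eq_mul, hd]
    ring
  have hsw : ∑ G ∈ V, f G * (c0 + ∑ j, c j * chr (E j) G) =
      ∑ j, c j * ∑ G ∈ V, f G * chr (E j) G := by
    have h3 : ∀ G ∈ V, f G * (c0 + ∑ j, c j * chr (E j) G) =
        f G * c0 + ∑ j, c j * (f G * chr (E j) G) := by
      intro G _
      rw [mul_add, Finset.mul_sum]
      congr 1
      exact Finset.sum_congr rfl fun j _ => by ring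
    rw [Finset.sum_congr rfl h3, Finset.sum_add_distrib, ← Finset.sum_mul, hsumf, zero_mul,
      zero_add, Finset.sum_comm]
    exact Finset.sum_congr rfl fun j _ => by rw [Finset.mul_sum]
  rw [hsw] at hcor
  -- a good parity
  have hex : ∃ j, 2 * a * (1 - a) * V.card / W ≤ |∑ G ∈ V, f G * chr (E j) G| := by
    by_contra hcon
    push Not at hcon
    have hpos : 0 < 2 * a * (1 - a) * V.card := by
      have : 0 < 1 - a := by linarith
      positivity
    have h3 : ∑ j, c j * ∑ G ∈ V, f G * chr (E j) G ≤
        ∑ j, |c j| * (2 * a * (1 - a) * V.card / W) := by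
      apply Finset.sum_le_sum
      intro j _
      calc c j * ∑ G ∈ V, f G * chr (E j) G ≤ |c j * ∑ G ∈ V, f G * chr (E j) G| := le_abs_self _
        _ = |c j| * |∑ G ∈ V, f G * chr (E j) G| := abs_mul _ _
        _ ≤ _ := mul_le_mul_of_nonneg_left (hcon j).le (abs_nonneg _)
    rw [← Finset.sum_mul] at h3
    -- strictness
    by_cases hz : ∀ j, c j = 0
    · simp only [hz, zero_mul, Finset.sum_const_zero] at hcor
      linarith
    · push Not at hz
      obtain ⟨j0, hj0⟩ := hz
      have h4 : ∑ j, c j * ∑ G ∈ V, f G * chr (E j) G <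
          ∑ j, |c j| * (2 * a * (1 - a) * V.card / W) := by
        apply Finset.sum_lt_sum
        · intro j _
          calc c j * ∑ G ∈ V, f G * chr (E j) G
              ≤ |c j * ∑ G ∈ V, f G * chr (E j) G| := le_abs_self _
            _ = |c j| * |∑ G ∈ V, f G * chr (E j) G| := abs_mul _ _
            _ ≤ _ := mul_le_mul_of_nonneg_left (hcon j).le (abs_nonneg _)
        · refine ⟨j0, Finset.mem_univ _, ?_⟩
          calc c j0 * ∑ G ∈ V, f G * chr (E j0) G
              ≤ |c j0 * ∑ G ∈ V, f G * chr (E j0) G| := le_abs_self _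
            _ = |c j0| * |∑ G ∈ V, f G * chr (E j0) G| := abs_mul _ _
            _ < _ := mul_lt_mul_of_pos_left (hcon j0) (abs_pos.2 hj0)
      rw [← Finset.sum_mul] at h4
      have h5 : (∑ j, |c j|) * (2 * a * (1 - a) * V.card / W) ≤ 2 * a * (1 - a) * V.card := by
        calc (∑ j, |c j|) * (2 * a * (1 - a) * V.card / W)
            ≤ W * (2 * a * (1 - a) * V.card / W) :=
              mul_le_mul_of_nonneg_right hc (by positivity)
          _ = 2 * a * (1 - a) * V.card := by field_simp
      linarith
  obtain ⟨j, hj⟩ := hex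
  -- the sums over the two halves
  set P := ∑ G ∈ V.filter (fun G => par (E j) G = 0), f G with hP
  set Q := ∑ G ∈ V.filter (fun G => ¬ par (E j) G = 0), f G with hQ
  have hPQ : P + Q = 0 := by
    rw [hP, hQ, Finset.sum_filter_add_sum_filter_not, hsumf]
  have hPmQ : ∑ G ∈ V, f G * chr (E j) G = P - Q := by
    rw [← Finset.sum_filter_add_sum_filter_not V (fun G => par (E j) G = 0), hP, hQ,
      sub_eq_add_neg, ← Finset.sum_neg_distrib]
    congr 1
    · apply Finset.sum_congr rfl
      intro G hG
      rw [Finset.mem_filter] at hG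
      unfold chr
      rw [if_pos hG.2, mul_one]
    · apply Finset.sum_congr rfl
      intro G hG
      rw [Finset.mem_filter] at hG
      unfold chr
      rw [if_neg hG.2]
      ring
  have hpos : 0 < 2 * a * (1 - a) * V.card / W := by
    have : 0 < 1 - a := by linarith
    positivity
  -- choose the half
  have hchoice : ∃ t : ZMod 2, a * (1 - a) * V.card / W ≤
      ∑ G ∈ V.filter (fun G => par (E j) G = t), f G := by
    rw [hPmQ] at hj
    have hQP : Q = -P := by linarith
    rw [hQP] at hj
    rcases le_or_gt 0 P with h0 | h0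
    · refine ⟨0, ?_⟩
      rw [abs_of_nonneg (by linarith)] at hj
      have e : 2 * a * (1 - a) * V.card / W = 2 * (a * (1 - a) * V.card / W) := by ring
      rw [e] at hj
      linarith
    · refine ⟨1, ?_⟩
      rw [abs_of_neg (by linarith)] at hj
      have e : 2 * a * (1 - a) * V.card / W = 2 * (a * (1 - a) * V.card / W) := by ring
      rw [e] at hj
      have e2 : (V.filter fun G => par (E j) G = 1) = V.filter fun G => ¬ par (E j) G = 0 := by
        apply Finset.filter_congr
        intro G _
        generalize par (E j) G = x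
        revert x
        decide
      rw [e2, ← hQ, hQP]
      linarith
  obtain ⟨t, ht⟩ := hchoice
  -- the parity is not constant on V
  have hnc : ∃ A ∈ V, ∃ B ∈ V, par (E j) A ≠ par (E j) B := by
    by_contra hcon
    push Not at hcon
    obtain ⟨A, hA⟩ := hV.ne
    have h3 : ∀ G ∈ V, f G * chr (E j) G = f G * chr (E j) A := by
      intro G hG
      unfold chr
      rw [hcon G hG A hA]
    rw [Finset.sum_congr rfl h3, ← Finset.sum_mul, hsumf, zero_mul, abs_zero] at hj
    linarith
  obtain ⟨A, hA, B, hB, hAB⟩ := hnc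
  obtain ⟨hhalf, haff⟩ := card_split hV (E j) hA hB hAB t
  refine ⟨E j, _, haff, ?_⟩
  have hcard : (2 : ℝ) * (V.filter fun G => par (E j) G = t).card = V.card := by
    exact_mod_cast hhalf
  have hsum : ∑ G ∈ V.filter (fun G => par (E j) G = t), f G =
      (((V.filter fun G => par (E j) G = t).filter (· ∈ F)).card : ℝ) -
        a * (V.filter fun G => par (E j) G = t).card := by
    rw [hf, Finset.sum_sub_distrib, Finset.sum_const, ← Finset.sum_filter, Finset.sum_const,
      nsmul_eq_mul, nsmul_eq_mul]
    ring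
  rw [hsum, ← hcard] at ht
  have h6 : a * (1 - a) * (2 * ((V.filter fun G => par (E j) G = t).card : ℝ)) / W =
      a * (2 * (1 - a)) * (V.filter fun G => par (E j) G = t).card * (1 / W) := by ring
  rw [h6] at ht
  have h7 : a * 1 * ((V.filter fun G => par (E j) G = t).card : ℝ) * (1 / W) ≤
      a * (2 * (1 - a)) * (V.filter fun G => par (E j) G = t).card * (1 / W) := by
    have : (1 : ℝ) ≤ 2 * (1 - a) := by linarith
    gcongr
  nlinarith

/-- **thresholds of parities** -/
theorem threshold {F : Finset (SimpleGraph (Fin n))} (hn : 2 ≤ n)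
    (hF : SCode (fun _ => True) F) {s : ℕ} (E : Fin s → Finset (Sym2 (Fin n))) (c0 : ℝ)
    (c : Fin s → ℝ) {W : ℝ} (hW : 0 < W) (hc : ∑ j, |c j| ≤ W)
    (h1 : ∀ G ∈ F, 1 ≤ c0 + ∑ j, c j * chr (E j) G)
    (h2 : ∀ G, G ∉ F → c0 + ∑ j, c j * chr (E j) G ≤ -1) :
    (F.card : ℝ) * (1 + 1 / W) ^ (n / 2 - 1) ≤ 1 / 2 * 2 ^ n.choose 2 := by
  classical
  have hcardG : (Fintype.card (SimpleGraph (Fin n)) : ℝ) = 2 ^ n.choose 2 := by
    have e : Fintype.card (SimpleGraph (Fin n)) = Fintype.card (GV (Fin n)) :=
      Fintype.card_of_bijective (f := toV) ⟨toV_inj, fun g => ⟨ofV g, toV_ofV g⟩⟩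
    rw [e, card_GV]
    push_cast
    ring
  rcases F.eq_empty_or_nonempty with h0 | hne
  · rw [h0]
    simp
  set N : ℝ := (Fintype.card (SimpleGraph (Fin n)) : ℝ) with hN
  have hNpos : 0 < N := by
    rw [hN]
    exact_mod_cast Fintype.card_pos
  set δ : ℝ := F.card / N with hδ
  have hδpos : 0 < δ := by
    have : (0 : ℝ) < F.card := by exact_mod_cast Finset.card_pos.2 hne
    positivity
  have key : ∀ t : ℕ, t ≤ n / 2 → ∃ (V : Finset (SimpleGraph (Fin n)))
      (J : Finset (Finset (Sym2 (Fin n)))), Aff V J ∧ J.card ≤ t ∧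
        δ * (1 + 1 / W) ^ t * V.card ≤ (V.filter (· ∈ F)).card := by
    intro t
    induction t with
    | zero =>
      intro _
      refine ⟨Finset.univ, ∅, ⟨Finset.univ_nonempty, ?_, ?_⟩, by simp, ?_⟩
      · intro _ _ _ _ _ _
        exact Finset.mem_univ _
      · intro _ _ _ _
        exact Finset.mem_univ _
      · rw [pow_zero, mul_one, Finset.card_univ, ← hN, hδ]
        have e : (Finset.univ.filter (· ∈ F)) = F := by ext; simp
        rw [e]
        exact le_of_eq (by field_simp)
    | succ t ih =>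
      intro ht
      obtain ⟨V, J, hV, hJ, hd⟩ := ih (by omega)
      have hVpos : (0 : ℝ) < V.card := by exact_mod_cast Finset.card_pos.2 hV.ne
      have hhalf := half hF hV (by omega)
      set a : ℝ := (V.filter (· ∈ F)).card / V.card with ha
      have had : ((V.filter (· ∈ F)).card : ℝ) = a * V.card := by rw [ha]; field_simp
      have hWp : 0 < 1 + 1 / W := by positivity
      have hage : δ * (1 + 1 / W) ^ t ≤ a := by
        rw [ha, le_div_iff₀ hVpos]
        exact hd
      have hapos : 0 < a := lt_of_lt_of_le (mul_pos hδpos (pow_pos hWp t)) hage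
      have ha2 : a ≤ 1 / 2 := by
        rw [ha, div_le_iff₀ hVpos]
        have : (2 : ℝ) * (V.filter (· ∈ F)).card ≤ V.card := by exact_mod_cast hhalf
        linarith
      obtain ⟨E', V', haff, hinc⟩ := increment hV E c0 c hW hc h1 h2 hapos ha2 had
      refine ⟨V', insert E' J, haff, (Finset.card_insert_le _ _).trans (by omega), ?_⟩
      refine le_trans ?_ hinc
      rw [pow_succ, ← mul_assoc]
      have : δ * (1 + 1 / W) ^ t * (1 + 1 / W) ≤ a * (1 + 1 / W) :=
        mul_le_mul_of_nonneg_right hage hWp.le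
      exact mul_le_mul_of_nonneg_right this (Nat.cast_nonneg _)
  obtain ⟨V, J, hV, hJ, hd⟩ := key (n / 2 - 1) (by omega)
  have hVpos : (0 : ℝ) < V.card := by exact_mod_cast Finset.card_pos.2 hV.ne
  have hhalf : (2 : ℝ) * (V.filter (· ∈ F)).card ≤ V.card := by
    exact_mod_cast half hF hV (by omega)
  have h3 : δ * (1 + 1 / W) ^ (n / 2 - 1) ≤ 1 / 2 := by
    have h4 : δ * (1 + 1 / W) ^ (n / 2 - 1) * V.card ≤ 1 / 2 * V.card := by linarith
    exact le_of_mul_le_mul_right h4 hVpos
  rw [← hcardG]
  calc (F.card : ℝ) * (1 + 1 / W) ^ (n / 2 - 1) = δ * (1 + 1 / W) ^ (n / 2 - 1) * N := by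
        rw [hδ]; field_simp
    _ ≤ 1 / 2 * N := mul_le_mul_of_nonneg_right h3 hNpos.le

end

end Pool.Agent.Helper58.GC
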